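import Pool.Agent.Helper18.SG.Goals
import Pool.Agent.Helper49.Gm.F2

/-! Packet SG F: the triangle is good for multiplicities `≤ M`. -/

set_option autoImplicit false

namespace Pool.Agent.Helper58.SG

open Finset Pool.Agent.Lead.Sh Pool.Agent.Helper43.Ah
open Pool.Agent.Helper18.SG

/-- exact filling gives injectivity -/
lemma key (hS : GoalS) (hA2 : GoalA2) (hP : GoalP) (hG : GoalG) (hF0 : GoalF0) (hF1 : GoalF1)
    (M S b d : ℕ) (hM : 1 ≤ M) (hb : 1 ≤ b) (ℓ' : ℕ → ℕ) (s' : Finset ℕ) (mm : ℕ → ℕ)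
    (hmm : ∀ k ∈ s', 1 ≤ mm k ∧ mm k ≤ M)
    (hle : ∀ y < d / b + 1, rl b d y ≤ ℓ' y)
    (hyp : ∀ (N : ℕ) (ν : ℕ → ℕ), Antitone ν → (∀ c, 1 ≤ ν c) → (∀ c, ν c ≤ M) →
      ∑ c ∈ range N, (ν c + 1).choose 2 = ∑ k ∈ s', (mm k + 1).choose 2 →
      Hyp M S (d / b + 1) N ν ℓ') :
    Inj (triD 0 d) (rows mm s') := by
  classical
  obtain ⟨e, ν, hν, hν1, he, hinj, hsum⟩ := hF0 M s' mm hM hmm
  obtain ⟨f1, f2, f3, _, _, _⟩ := hF1 b d hb
  have hy := hyp s'.card ν hν (fun c => (hν1 c).1) (fun c => (hν1 c).2) hsum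
  obtain ⟨s, z, hsz, hLo⟩ := hG M S (d / b + 1) s'.card ν ℓ' hy
  obtain ⟨π, ε, hpri⟩ := hP (d / b + 1) s'.card ν s z hsz
  have hpri2 := Pool.Agent.Helper43.Gm.PkF2.pri_rev _ _ _ _ _ _ hpri
  have h1 : Inj ((triD 0 d).image (sig b)) (rows ν (range s'.card)) := by
    refine hA2 (d / b + 1) _ s'.card ν _ _ _ f2 hpri2 ?_
    intro y hy2
    rw [f3 y hy2]
    have h2 := hLo (d / b + 1 - 1 - y) (by omega)
    have h3 := hle (d / b + 1 - 1 - y) (by omega)
    rw [← h2, show d / b + 1 - 1 - y = d / b - y by omega] at h3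
    rw [show d / b + 1 - 1 - y = d / b - y by omega]
    exact h3
  have h4 := hS b (triD 0 d) ν (range s'.card) hb f1 h1
  refine inj_relabel e ?_ ?_ ?_ h4
  · intro k hk
    exact (he k (mem_range.1 hk)).1
  · intro k hk k' hk' hee
    exact hinj k (mem_range.1 hk) k' (mem_range.1 hk') hee
  · intro k hk
    exact ((he k (mem_range.1 hk)).2).symm

/-- checking the conditions on the rows -/
lemma hyp_of (hF1 : GoalF1) (M S b d i0 : ℕ) (hM : 1 ≤ M) (hMb : 27 * M ≤ b ^ 2)
    (hd : b * (2 * M + 1) ≤ d) (q : ℕ) (hS : S = 1 ∨ (S = 0 ∧ i0 = 0)) (T : ℕ)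
    (hsum : ∑ y ∈ range (d / b + 1), (rl b d y + q + (if d / b + 1 ≤ y + i0 then 1 else 0)) = T)
    (N : ℕ) (ν : ℕ → ℕ) (hν : Antitone ν) (hν1 : ∀ c, 1 ≤ ν c) (hνM : ∀ c, ν c ≤ M)
    (htot : ∑ c ∈ range N, (ν c + 1).choose 2 = T) :
    Hyp M S (d / b + 1) N ν
      (fun y => rl b d y + q + (if d / b + 1 ≤ y + i0 then 1 else 0)) := by
  have hb : 1 ≤ b := by
    rcases Nat.eq_zero_or_pos b with h | h
    · rw [h] at hMb; omega
    · exact h
  have hR : 2 * M + 1 ≤ d / b := by
    rw [Nat.le_div_iff_mul_le (by omega)]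
    rw [Nat.mul_comm]; exact hd
  have hbd : b ≤ d := by
    refine le_trans ?_ hd
    exact Nat.le_mul_of_pos_right b (by omega)
  obtain ⟨_, _, _, _, f5, f6⟩ := hF1 b d hb
  have g5 := f5 hbd
  have inc0 : ∀ y, y + 1 < d / b + 1 → rl b d y + 3 * M ≤ rl b d (y + 1) := by
    intro y hy
    rcases Nat.eq_zero_or_pos y with h | h
    · subst h
      have : 0 + 1 = 1 := rfl
      rw [this]
      omega
    · rw [f6 y h hy]
      omega
  have ind : ∀ y, (if d / b + 1 ≤ y + i0 then 1 else 0) ≤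
      (if d / b + 1 ≤ y + 1 + i0 then 1 else 0 : ℕ) := by
    intro y
    split_ifs <;> omega
  refine ⟨hM, by omega, hν, hν1, hνM, ?_, ?_, ?_, ?_⟩
  · intro y hy
    have h1 := inc0 y hy
    have h2 := ind y
    have h3 : rl b d y + q + (if d / b + 1 ≤ y + i0 then 1 else 0) + 3 * M ≤
        rl b d (y + 1) + q + (if d / b + 1 ≤ y + 1 + i0 then 1 else 0) := by omega
    have h4 := Nat.mul_le_mul_left M h3
    rw [Nat.mul_add] at h4
    have h5 : M * (3 * M) = 3 * M ^ 2 := by ring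
    rw [h5] at h4
    exact le_trans h4 (Nat.le_add_right _ _)
  · intro y hy hy2
    have h1 := f6 y (by omega) hy
    have h2 := ind y
    have h3 : rl b d y + q + (if d / b + 1 ≤ y + i0 then 1 else 0) + 27 * M ≤
        rl b d (y + 1) + q + (if d / b + 1 ≤ y + 1 + i0 then 1 else 0) := by omega
    have h4 := Nat.mul_le_mul_left M h3
    rw [Nat.mul_add] at h4
    have h5 : M * (27 * M) = 27 * M ^ 2 := by ring
    rw [h5] at h4
    have h6 : (26 + S) * M ^ 2 ≤ 27 * M ^ 2 := Nat.mul_le_mul_right _ (by omega)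
    refine le_trans (Nat.add_le_add_left h6 _) (le_trans h4 (Nat.le_add_right _ _))
  · intro y hy hy2
    have h1 := f6 y (by omega) (by omega)
    have h2 := f6 (y + 1) (by omega) (by omega)
    have e1 : y + 1 + 1 = y + 2 := rfl
    rw [e1] at h2
    rw [h2, h1]
    rcases hS with h | ⟨h, h'⟩
    · subst h
      split_ifs <;> omega
    · subst h h'
      rw [if_neg (by omega), if_neg (by omega), if_neg (by omega)]
      omega
  · rw [htot, hsum]

theorem goalF (hS : GoalS) (hA2 : GoalA2) (hP : GoalP) (hG : GoalG) (hF0 : GoalF0)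
    (hF1 : GoalF1) : GoalF := by
  classical
  intro M b d hM hMb hd
  have hb : 1 ≤ b := by
    rcases Nat.eq_zero_or_pos b with h | h
    · rw [h] at hMb; omega
    · exact h
  obtain ⟨_, _, _, f4, _, _⟩ := hF1 b d hb
  intro s0 mm hmm0
  set s := s0.filter (fun k => 0 < mm k) with hs
  have hrows : rows mm s0 = rows mm s := by
    ext r
    rw [mem_rows, mem_rows, hs, mem_filter]
    constructor
    · rintro ⟨a, b⟩; exact ⟨⟨a, by omega⟩, b⟩
    · rintro ⟨⟨a, _⟩, b⟩; exact ⟨a, b⟩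
  have hsum0 : ∑ k ∈ s0, (mm k + 1).choose 2 = ∑ k ∈ s, (mm k + 1).choose 2 := by
    rw [hs, sum_filter]
    apply sum_congr rfl
    intro k _
    split_ifs with h1
    · rfl
    · rw [show mm k = 0 by omega]; rfl
  rw [hrows, hsum0]
  have h1 : ∀ k ∈ s, 1 ≤ mm k := fun k hk => (mem_filter.1 hk).2
  have hmm : ∀ k ∈ s, mm k ≤ M := fun k hk => hmm0 k (mem_filter.1 hk).1
  constructor
  · intro hT
    obtain ⟨s', hs', hT1, hT2⟩ := subtotal M _ hM mm s hmm hT
    obtain ⟨k, hk⟩ := Nat.exists_eq_add_of_le hT1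
    set R := d / b + 1 with hR
    have hsum : ∑ y ∈ range (d / b + 1),
        (rl b d y + k / R + (if d / b + 1 ≤ y + k % R then 1 else 0)) =
        ∑ x ∈ s', (mm x + 1).choose 2 := by
      rw [sum_add_distrib, sum_add_distrib, f4, sum_const, card_range, smul_eq_mul, hk,
        card_triD, ← card_filter]
      have e1 : (range (d / b + 1)).filter (fun y => d / b + 1 ≤ y + k % R) =
          Ico (R - k % R) R := by
        ext y
        rw [mem_filter, mem_range, mem_Ico]
        omega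
      have e2 : k % R < R := Nat.mod_lt _ (Nat.succ_pos _)
      rw [e1, Nat.card_Ico, ← hR, show R - (R - k % R) = k % R by omega, add_assoc,
        Nat.div_add_mod]
    have h5 := key hS hA2 hP hG hF0 hF1 M 1 b d hM hb
      (fun y => rl b d y + k / R + (if d / b + 1 ≤ y + k % R then 1 else 0)) s' mm
      (fun x hx => ⟨h1 x (hs' hx), hmm x (hs' hx)⟩) (fun y _ =>
        le_trans (Nat.le_add_right _ _) (Nat.le_add_right _ _))
      (fun N ν a1 a2 a3 a4 => hyp_of hF1 M 1 b d (k % R) hM hMb hd (k / R) (Or.inl rfl) _ hsum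
        N ν a1 a2 a3 a4)
    exact h5.mono subset_rfl (rows_mono hs')
  · intro hT
    obtain ⟨t, ht⟩ := Nat.exists_eq_add_of_le hT
    set B := s.sup id + 1 with hB
    have hsB : ∀ k ∈ s, k < B := by
      intro k hk
      have : k ≤ s.sup id := le_sup (f := id) hk
      omega
    set mp : ℕ → ℕ := fun k => if k < B then mm k else 1 with hmp
    set sp := s ∪ Ico B (B + t) with hsp
    have hdj : Disjoint s (Ico B (B + t)) := by
      rw [disjoint_left]
      intro k hk hk2
      rw [mem_Ico] at hk2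
      have := hsB k hk
      omega
    have hmps : ∀ k ∈ s, mm k = mp k := by
      intro k hk
      simp only [hmp]
      rw [if_pos (hsB k hk)]
    have hsump : ∑ k ∈ sp, (mp k + 1).choose 2 = (triD 0 d).card := by
      rw [hsp, sum_union hdj, ht]
      congr 1
      · apply sum_congr rfl
        intro k hk
        rw [hmps k hk]
      · rw [sum_congr rfl (g := fun _ => 1)]
        · rw [sum_const, smul_eq_mul, Nat.card_Ico, Nat.add_sub_cancel_left, mul_one]
        · intro k hk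
          rw [mem_Ico] at hk
          simp only [hmp]
          rw [if_neg (by omega)]
          rfl
    have h1p : ∀ k ∈ sp, 1 ≤ mp k ∧ mp k ≤ M := by
      intro k hk
      rcases mem_union.1 hk with hk | hk
      · rw [← hmps k hk]; exact ⟨h1 k hk, hmm k hk⟩
      · rw [mem_Ico] at hk
        simp only [hmp]
        rw [if_neg (by omega)]; exact ⟨le_rfl, hM⟩
    have hsum : ∑ y ∈ range (d / b + 1),
        (rl b d y + 0 + (if d / b + 1 ≤ y + 0 then 1 else 0)) =
        ∑ x ∈ sp, (mp x + 1).choose 2 := by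
      rw [hsump, card_triD, ← f4]
      apply sum_congr rfl
      intro y hy
      rw [mem_range] at hy
      rw [if_neg (by omega), add_zero, add_zero]
    have h5 := key hS hA2 hP hG hF0 hF1 M 0 b d hM hb
      (fun y => rl b d y + 0 + (if d / b + 1 ≤ y + 0 then 1 else 0)) sp mp h1p (fun y _ => by omega)
      (fun N ν a1 a2 a3 a4 => hyp_of hF1 M 0 b d 0 hM hMb hd 0 (Or.inr ⟨rfl, rfl⟩) _ hsum
        N ν a1 a2 a3 a4)
    obtain ⟨P, hP'⟩ := h5
    have hInd : Ind (triD 0 d) (rows mp sp) := ⟨P, hP'.ind (by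
      rw [card_rows, hsump])⟩
    refine hInd.mono subset_rfl ?_
    rw [rows_congr hmps]
    exact rows_mono subset_union_left

end Pool.Agent.Helper58.SG
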