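import Pool.Agent.Helper58.SG.Bil

set_option autoImplicit false

namespace Pool.Agent.Helper58.SG

/-- Each vertex is a union of `m` segments. -/
def Pieces (m : ℕ) : Cls := fun n G => ∃ p q : Fin n → Fin m → ℝ × ℝ, ∀ v w : Fin n, v ≠ w →
  (G.Adj v w ↔ ∃ i j, (segment ℝ (p v i) (q v i) ∩ segment ℝ (p w j) (q w j)).Nonempty)

/-- Graphs given by a Boolean combination `F` of the signs of `m` products of vectors. -/
def BoolSign (m : ℕ) (F : (Fin m → Prop) → Prop) : Cls := fun n G =>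
  ∃ u w : Fin m → Fin n → ℝ × ℝ × ℝ, ∀ a b : Fin n, a ≠ b →
    (G.Adj a b ↔ F (fun i => 0 ≤ dot3 (u i a) (w i b)))

theorem dot3_comm (u w : ℝ × ℝ × ℝ) : dot3 u w = dot3 w u := by
  unfold dot3
  ring

/-- Code of a tuple. -/
def encm : (m : ℕ) → (Fin m → ℕ) → ℕ
  | 0, _ => 0
  | m + 1, g => Nat.pair (g 0) (encm m (fun i => g i.succ))

/-- Entries of a tuple. -/
def decm : ℕ → ℕ → ℕ
  | 0, c => (Nat.unpair c).1
  | i + 1, c => decm i (Nat.unpair c).2

theorem decm_encm : ∀ (m : ℕ) (g : Fin m → ℕ) (i : Fin m), decm i (encm m g) = g i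
  | 0, _, i => i.elim0
  | m + 1, g, i => by
    refine Fin.cases ?_ (fun j => ?_) i
    · simp [decm, encm]
    · simp only [Fin.val_succ, decm, encm, Nat.unpair_pair]
      exact decm_encm m _ j

theorem encm_lt {B : ℕ} (hB : 0 < B) : ∀ (m : ℕ) (g : Fin m → ℕ), (∀ i, g i < B) →
    encm m g < B ^ (2 ^ m)
  | 0, _, _ => by simpa [encm] using hB
  | m + 1, g, hg => by
    have h1 : encm m (fun i => g i.succ) < B ^ (2 ^ m) := encm_lt hB m _ fun i => hg _
    have h2 : g 0 < B ^ (2 ^ m) := lt_of_lt_of_le (hg 0)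
      (by calc B = B ^ 1 := (pow_one B).symm
            _ ≤ B ^ (2 ^ m) := Nat.pow_le_pow_right hB Nat.one_le_two_pow)
    have h3 := pair_lt h2 h1
    calc encm (m + 1) g < (B ^ (2 ^ m)) ^ 2 := h3
      _ = B ^ (2 ^ (m + 1)) := by rw [← pow_mul, pow_succ]

/-- Labels for a class whose graphs are got from graphs with `s` copies of each vertex. -/
theorem HasELR.comb {C D : Cls} (s : ℕ) (F : (Fin s → Fin s → Prop) → Prop) (hC : HasELR C)
    (h : ∀ n (G : SimpleGraph (Fin n)), D n G → ∃ H : SimpleGraph (Fin (s * n)), C (s * n) H ∧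
      ∀ v w, v ≠ w → (G.Adj v w ↔
        F (fun i j => H.Adj (finProdFinEquiv (i, v)) (finProdFinEquiv (j, w))))) : HasELR D := by
  obtain ⟨k, f, hf⟩ := hC
  refine ⟨(s + 1) * (k * 2 ^ s), fun a b => F (fun i j => f (decm i a) (decm j b)),
    fun n G hG => ?_⟩
  rcases Nat.lt_or_ge n 2 with hn | hn
  · refine ⟨fun _ => 0, fun v => Nat.pow_pos (Nat.pos_of_ne_zero ?_), fun v w hvw => ?_⟩
    · rintro rfl; exact v.elim0
    · exfalso
      apply hvw
      ext
      have := v.2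
      have := w.2
      omega
  obtain ⟨H, hH, hadj⟩ := h n G hG
  obtain ⟨l, hl, hl2⟩ := hf (s * n) H hH
  refine ⟨fun v => encm s (fun i => l (finProdFinEquiv (i, v))), fun v => ?_, fun v w hvw => ?_⟩
  · have hsn : s * n ≤ n ^ (s + 1) := by
      rw [pow_succ]
      exact Nat.mul_le_mul_right _
        ((Nat.lt_pow_self (by norm_num : 1 < 2)).le.trans (Nat.pow_le_pow_left hn s))
    have hle : ∀ i, l (finProdFinEquiv (i, v)) < (n ^ (s + 1)) ^ k := fun i =>
      lt_of_lt_of_le (hl _) (Nat.pow_le_pow_left hsn k)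
    calc encm s (fun i => l (finProdFinEquiv (i, v))) < ((n ^ (s + 1)) ^ k) ^ (2 ^ s) :=
          encm_lt (by positivity) s _ hle
      _ = n ^ ((s + 1) * (k * 2 ^ s)) := by rw [← pow_mul, ← pow_mul]
  · rw [hadj v w hvw]
    have e : (fun i j => H.Adj (finProdFinEquiv (i, v)) (finProdFinEquiv (j, w))) =
        fun i j : Fin s => f (decm i (encm s (fun i => l (finProdFinEquiv (i, v)))))
          (decm j (encm s (fun i => l (finProdFinEquiv (i, w))))) := by
      funext i j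
      rw [decm_encm, decm_encm]
      refine propext (hl2 _ _ fun he => hvw ?_)
      have := finProdFinEquiv.injective he
      exact (Prod.ext_iff.mp this).2
    rw [e]

theorem dot2_of_bil (h : HasELR Bil3) : HasELR Dot2 := by
  refine HasELR.mono (fun n G hG => ?_) h
  obtain ⟨x, y, hxy⟩ := hG
  refine ⟨fun v => (x v, y v, 1), fun w => (x w, y w, -1), fun v w hvw => ?_⟩
  rw [hxy v w hvw]
  unfold dot3
  constructor
  · intro h1
    show 0 ≤ x v * x w + y v * y w + 1 * (-1)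
    linarith
  · intro h1
    have h1 : 0 ≤ x v * x w + y v * y w + 1 * (-1) := h1
    linarith

theorem pl_of_dot2 (h : HasELR Dot2) : HasELR PointLine := by
  refine HasELR.transfer h fun n G hG => ?_
  obtain ⟨c, x, y, hG⟩ := hG
  obtain ⟨K, hK⟩ : ∃ K : ℝ, ∀ v, 0 < y v + K := by
    obtain ⟨M, hM⟩ := (Set.finite_range (fun v => - y v)).bddAbove
    exact ⟨M + 1, fun v => by
      have h1 : - y v ≤ M := hM ⟨v, rfl⟩
      linarith⟩
  obtain ⟨a, ha⟩ : ∃ a : Fin n → ℝ, ∀ v, a v = if c v then - x v / (y v + K) else x v :=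
    ⟨_, fun _ => rfl⟩
  obtain ⟨b, hb⟩ : ∃ b : Fin n → ℝ, ∀ v, b v = if c v then 1 / (y v + K) else y v + K :=
    ⟨_, fun _ => rfl⟩
  have key : ∀ v w, c v = false → c w = true →
      (x w * x v + y w ≤ y v ↔ 1 ≤ a v * a w + b v * b w) := by
    intro v w h1 h2
    rw [ha, ha, hb, hb, h1, h2]
    simp only [Bool.false_eq_true, if_false, if_true]
    have h3 : x v * (- x w / (y w + K)) + (y v + K) * (1 / (y w + K)) =
        ((y v + K) - x w * x v) / (y w + K) := by ring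
    rw [h3, le_div_iff₀ (hK w)]
    constructor <;> intro h4 <;> linarith
  refine ⟨⟨fun v w => v ≠ w ∧ 1 ≤ a v * a w + b v * b w,
    ⟨fun v w hvw => ⟨hvw.1.symm, by rw [mul_comm (a w), mul_comm (b w)]; exact hvw.2⟩⟩,
    ⟨fun v hv => hv.1 rfl⟩⟩, c, ⟨a, b, fun v w hvw => ?_⟩, fun v w hvw => ?_⟩
  · exact ⟨fun h1 => h1.2, fun h1 => ⟨hvw, h1⟩⟩
  · rw [hG]
    show _ ↔ _ ∧ v ≠ w ∧ 1 ≤ a v * a w + b v * b w
    rcases hv : c v <;> rcases hw : c w
    · simp
    · rw [← key v w hv hw]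
      simp [hvw]
    · have := key w v hw hv
      rw [mul_comm (a w), mul_comm (b w)] at this
      rw [← this]
      simp [hvw]
    · simp

theorem pl_of_sign (h : HasELR Sign3) : HasELR PointLine := by
  refine HasELR.mono (fun n G hG => ?_) h
  obtain ⟨c, x, y, hG⟩ := hG
  refine ⟨c, fun v => if c v then (- x v, 1, - y v) else (x v, y v, 1), fun v w => ?_⟩
  rw [hG]
  rcases hv : c v <;> rcases hw : c w
  · simp
  · simp only [hv, hw, Bool.false_eq_true, if_false, if_true, dot3, true_and, false_and,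
      or_false, ne_eq, not_false_eq_true, reduceCtorEq]
    constructor <;> intro h1 <;> linarith
  · simp only [hv, hw, Bool.false_eq_true, if_false, if_true, dot3, true_and, false_and,
      false_or, ne_eq, not_false_eq_true, reduceCtorEq]
    constructor <;> intro h1 <;> linarith
  · simp

theorem sign_of_bil (h : HasELR Bil3) : HasELR Sign3 := by
  refine HasELR.transfer h fun n G hG => ?_
  obtain ⟨c, u, hG⟩ := hG
  refine ⟨⟨fun v w => v ≠ w ∧ 0 ≤ dot3 (u v) (u w),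
    ⟨fun v w hvw => ⟨hvw.1.symm, by rw [dot3_comm]; exact hvw.2⟩⟩,
    ⟨fun v hv => hv.1 rfl⟩⟩, c, ⟨u, u, fun v w hvw => ?_⟩, fun v w hvw => ?_⟩
  · exact ⟨fun h1 => h1.2, fun h1 => ⟨hvw, h1⟩⟩
  · rw [hG]
    exact ⟨fun h1 => ⟨h1.1, hvw, h1.2⟩, fun h1 => ⟨h1.1, h1.2.2⟩⟩

theorem pieces_of_seg (h : HasELR Seg) (m : ℕ) : HasELR (Pieces m) := by
  refine HasELR.comb m (fun M => ∃ i j, M i j) h fun n G hG => ?_
  obtain ⟨p, q, hG⟩ := hG
  let P : Fin (m * n) → ℝ × ℝ := fun t => p (finProdFinEquiv.symm t).2 (finProdFinEquiv.symm t).1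
  let Q : Fin (m * n) → ℝ × ℝ := fun t => q (finProdFinEquiv.symm t).2 (finProdFinEquiv.symm t).1
  refine ⟨⟨fun s t => s ≠ t ∧ (segment ℝ (P s) (Q s) ∩ segment ℝ (P t) (Q t)).Nonempty,
    ⟨fun v w hvw => ⟨hvw.1.symm, by rw [Set.inter_comm]; exact hvw.2⟩⟩,
    ⟨fun v hv => hv.1 rfl⟩⟩, ⟨P, Q, fun s t hst => ?_⟩, fun v w hvw => ?_⟩
  · exact ⟨fun h1 => h1.2, fun h1 => ⟨hst, h1⟩⟩
  · rw [hG v w hvw]
    refine exists_congr fun i => exists_congr fun j => ?_
    have hne : finProdFinEquiv (i, v) ≠ finProdFinEquiv (j, w) := fun he =>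
      hvw (Prod.ext_iff.mp (finProdFinEquiv.injective he)).2
    show _ ↔ _ ∧ (segment ℝ (p _ _) (q _ _) ∩ segment ℝ (p _ _) (q _ _)).Nonempty
    simp only [Equiv.symm_apply_apply]
    exact ⟨fun h1 => ⟨hne, h1⟩, fun h1 => h1.2⟩

theorem seg_of_pieces (h : ∀ m, HasELR (Pieces m)) : HasELR Seg := by
  refine HasELR.mono (fun n G hG => ?_) (h 1)
  obtain ⟨p, q, hG⟩ := hG
  refine ⟨fun v _ => p v, fun v _ => q v, fun v w hvw => ?_⟩
  rw [hG v w hvw]
  exact ⟨fun h1 => ⟨0, 0, h1⟩, fun ⟨_, _, h1⟩ => h1⟩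

theorem bool_of_sign (h : HasELR Sign3) (m : ℕ) (F : (Fin m → Prop) → Prop) :
    HasELR (BoolSign m F) := by
  refine HasELR.comb (2 * m)
    (fun M => F (fun i => M (finProdFinEquiv (0, i)) (finProdFinEquiv (1, i)))) h
    fun n G hG => ?_
  obtain ⟨u, w, hG⟩ := hG
  let side : Fin (2 * m * n) → Fin 2 := fun t =>
    (finProdFinEquiv.symm (finProdFinEquiv.symm t).1).1
  let V : Fin (2 * m * n) → ℝ × ℝ × ℝ := fun t =>
    if side t = 0 then u (finProdFinEquiv.symm (finProdFinEquiv.symm t).1).2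
      (finProdFinEquiv.symm t).2
    else w (finProdFinEquiv.symm (finProdFinEquiv.symm t).1).2 (finProdFinEquiv.symm t).2
  refine ⟨⟨fun s t => side s ≠ side t ∧ 0 ≤ dot3 (V s) (V t),
    ⟨fun v w hvw => ⟨hvw.1.symm, by rw [dot3_comm]; exact hvw.2⟩⟩,
    ⟨fun v hv => hv.1 rfl⟩⟩, ⟨fun t => decide (side t = 0), V, fun s t => ?_⟩, fun v w' hvw => ?_⟩
  · show _ ∧ _ ↔ _
    have h1 : (side s ≠ side t) ↔ (decide (side s = 0) ≠ decide (side t = 0)) := by
      generalize side s = a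
      generalize side t = b
      revert a b
      decide
    rw [h1]
  · rw [hG v w' hvw]
    have e : (fun i => 0 ≤ dot3 (u i v) (w i w')) = fun i : Fin m =>
        side (finProdFinEquiv (finProdFinEquiv (0, i), v)) ≠
          side (finProdFinEquiv (finProdFinEquiv (1, i), w')) ∧
        0 ≤ dot3 (V (finProdFinEquiv (finProdFinEquiv (0, i), v)))
          (V (finProdFinEquiv (finProdFinEquiv (1, i), w'))) := by
      funext i
      simp only [side, V, Equiv.symm_apply_apply]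
      simp
    rw [e]

theorem bil_of_bool (h : ∀ (m : ℕ) (F : (Fin m → Prop) → Prop), HasELR (BoolSign m F)) :
    HasELR Bil3 := by
  refine HasELR.mono (fun n G hG => ?_) (h 1 (fun P => P 0))
  obtain ⟨u, w, hG⟩ := hG
  exact ⟨fun _ => u, fun _ => w, hG⟩

end Pool.Agent.Helper58.SG
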