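import Pool.Agent.Helper58.SG.Main2

set_option autoImplicit false

namespace Pool.Agent.Helper58.SG

open Filter Topology

/-! ### Configurations in general position -/

theorem robust {n : ℕ} (c : Fin n → Bool) (x y : Fin n → ℝ) :
    ∃ x' y' : Fin n → ℝ,
      (∀ v w, c v = false → c w = true →
        (x w * x v + y w ≤ y v → x' w * x' v + y' w < y' v) ∧
        (y v < x w * x v + y w → y' v < x' w * x' v + y' w)) ∧
      ∀ v w, c v = true → c w = true → v ≠ w → x' v ≠ x' w := by
  -- the points are raised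
  have h1 : ∀ᶠ e in 𝓝[>] (0 : ℝ), ∀ v w, y v < x w * x v + y w → y v + e < x w * x v + y w := by
    rw [eventually_all]; intro v
    rw [eventually_all]; intro w
    by_cases h : y v < x w * x v + y w
    · have h2 : ∀ᶠ e in 𝓝 (0 : ℝ), y v + e < x w * x v + y w := by
        refine ContinuousAt.eventually_lt (by fun_prop) continuousAt_const ?_
        simpa using h
      exact (h2.filter_mono nhdsWithin_le_nhds).mono fun e he _ => he
    · exact Eventually.of_forall fun e h3 => absurd h3 h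
  obtain ⟨e, he, he0⟩ := (h1.and (eventually_mem_nhdsWithin)).exists
  have he0 : 0 < e := he0
  -- the slopes are changed
  have h2 : ∀ᶠ d in 𝓝[>] (0 : ℝ), ∀ v w : Fin n,
      (x w * x v + y w < y v + e → (x w + d * (w : ℕ)) * x v + y w < y v + e) ∧
      (y v + e < x w * x v + y w → y v + e < (x w + d * (w : ℕ)) * x v + y w) ∧
      (v ≠ w → x v + d * (v : ℕ) ≠ x w + d * (w : ℕ)) := by
    rw [eventually_all]; intro v
    rw [eventually_all]; intro w
    refine Eventually.and ?_ (Eventually.and ?_ ?_)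
    · by_cases h : x w * x v + y w < y v + e
      · have h2 : ∀ᶠ d in 𝓝 (0 : ℝ), (x w + d * (w : ℕ)) * x v + y w < y v + e := by
          refine ContinuousAt.eventually_lt (by fun_prop) continuousAt_const ?_
          simpa using h
        exact (h2.filter_mono nhdsWithin_le_nhds).mono fun e he _ => he
      · exact Eventually.of_forall fun e h3 => absurd h3 h
    · by_cases h : y v + e < x w * x v + y w
      · have h2 : ∀ᶠ d in 𝓝 (0 : ℝ), y v + e < (x w + d * (w : ℕ)) * x v + y w := by
          refine ContinuousAt.eventually_lt continuousAt_const (by fun_prop) ?_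
          simpa using h
        exact (h2.filter_mono nhdsWithin_le_nhds).mono fun e he _ => he
      · exact Eventually.of_forall fun e h3 => absurd h3 h
    · by_cases hvw : v = w
      · exact Eventually.of_forall fun e h3 => absurd hvw h3
      by_cases h : x v = x w
      · filter_upwards [eventually_mem_nhdsWithin] with d hd _ h3
        have hd : 0 < d := hd
        rw [h] at h3
        have h4 : d * ((v : ℕ) : ℝ) = d * ((w : ℕ) : ℝ) := by linarith
        have h5 : ((v : ℕ) : ℝ) = ((w : ℕ) : ℝ) := mul_left_cancel₀ hd.ne' h4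
        exact hvw (Fin.ext (by exact_mod_cast h5))
      · have h2 : ∀ᶠ d in 𝓝 (0 : ℝ), (x v + d * (v : ℕ)) - (x w + d * (w : ℕ)) ≠ 0 := by
          refine ContinuousAt.eventually_ne (by fun_prop) ?_
          simpa using sub_ne_zero.mpr h
        exact (h2.filter_mono nhdsWithin_le_nhds).mono fun e he _ => sub_ne_zero.mp he
  obtain ⟨d, hd⟩ := h2.exists
  refine ⟨fun v => if c v = true then x v + d * (v : ℕ) else x v,
    fun v => if c v = true then y v else y v + e, ?_, ?_⟩
  · intro v w hv hw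
    have hv' : ¬ c v = true := by rw [hv]; decide
    simp only [if_neg hv', if_pos hw]
    refine ⟨fun h => (hd v w).1 (by linarith), fun h => (hd v w).2.1 (he v w h)⟩
  · intro v w hv hw hvw
    simp only [if_pos hv, if_pos hw]
    exact (hd v w).2.2 hvw

/-! ### Segments from a configuration -/

/-- The intersection graph. -/
def iGraph {n : ℕ} (p q : Fin n → ℝ × ℝ) : SimpleGraph (Fin n) where
  Adj v w := v ≠ w ∧ (segment ℝ (p v) (q v) ∩ segment ℝ (p w) (q w)).Nonempty
  symm := ⟨fun v w h => ⟨h.1.symm, by rw [Set.inter_comm]; exact h.2⟩⟩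
  loopless := ⟨fun v h => h.1 rfl⟩

theorem iGraph_rep {n : ℕ} (p q : Fin n → ℝ × ℝ) : Rep (iGraph p q) p q :=
  fun _ _ hvw => ⟨fun h => h.2, fun h => ⟨hvw, h⟩⟩

/-- A point segment meets a line segment iff its upper end is not below the line. -/
theorem meet_iff {P Q O : ℝ × ℝ} {a b lo hi : ℝ} (h1 : lo ≤ P.1 ∧ P.1 ≤ hi)
    (h2 : lo ≤ O.1 ∧ O.1 ≤ hi) (hO : O.2 < a * O.1 + b) (hQ : Q.2 < a * Q.1 + b)
    (hs : O ∈ segment ℝ Q P) :
    (segment ℝ Q P ∩ segment ℝ (lo, a * lo + b) (hi, a * hi + b)).Nonempty ↔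
      a * P.1 + b ≤ P.2 := by
  have hlh : lo ≤ hi := le_trans h2.1 h2.2
  have hm : ∀ z : ℝ × ℝ, z ∈ segment ℝ (lo, a * lo + b) (hi, a * hi + b) ↔
      lo ≤ z.1 ∧ z.1 ≤ hi ∧ z.2 = a * z.1 + b := fun z =>
    mem_seg (p := (lo, a * lo + b)) (q := (hi, a * hi + b)) rfl rfl hlh
  constructor
  · rintro ⟨z, hz1, hz2⟩
    by_contra hP
    rw [not_le] at hP
    rw [hm] at hz2
    obtain ⟨s, t, hs, ht, hst, rfl⟩ := hz1
    simp only [Prod.fst_add, Prod.smul_fst, Prod.snd_add, Prod.smul_snd, smul_eq_mul] at hz2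
    have h3 : s * (a * Q.1 + b - Q.2) + t * (a * P.1 + b - P.2) = 0 := by
      have h4 : s = 1 - t := by linarith
      subst h4
      linear_combination -hz2.2.2
    rcases lt_or_eq_of_le ht with ht0 | ht0
    · have h5 : 0 < t * (a * P.1 + b - P.2) := mul_pos ht0 (by linarith)
      have h6 : 0 ≤ s * (a * Q.1 + b - Q.2) := mul_nonneg hs (by linarith)
      linarith
    · have h7 : s = 1 := by linarith
      rw [← ht0, h7] at h3
      linarith
  · intro hP
    obtain ⟨u, hu⟩ : ∃ u, u = P.2 - (a * P.1 + b) := ⟨_, rfl⟩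
    obtain ⟨o, ho⟩ : ∃ o, o = a * O.1 + b - O.2 := ⟨_, rfl⟩
    have hu0 : 0 ≤ u := by linarith
    have ho0 : 0 < o := by linarith
    have huo : 0 < u + o := by linarith
    have hz : (o / (u + o)) • P + (u / (u + o)) • O ∈ segment ℝ P O :=
      ⟨_, _, by positivity, by positivity, by field_simp; ring, rfl⟩
    have hsub : segment ℝ P O ⊆ segment ℝ Q P :=
      (convex_segment Q P).segment_subset (right_mem_segment ℝ Q P) hs
    refine ⟨_, hsub hz, ?_⟩
    rw [hm]
    simp only [Prod.fst_add, Prod.smul_fst, Prod.snd_add, Prod.smul_snd, smul_eq_mul]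
    have e1 : o / (u + o) + u / (u + o) = 1 := by field_simp; ring
    have e2 : 0 ≤ o / (u + o) := by positivity
    have e3 : 0 ≤ u / (u + o) := by positivity
    have e4 : ∀ m : ℝ, o / (u + o) * m + u / (u + o) * m = m := fun m => by
      rw [← add_mul, e1, one_mul]
    refine ⟨?_, ?_, ?_⟩
    · have g1 := mul_le_mul_of_nonneg_left h1.1 e2
      have g2 := mul_le_mul_of_nonneg_left h2.1 e3
      have g3 := e4 lo
      linarith
    · have g1 := mul_le_mul_of_nonneg_left h1.2 e2
      have g2 := mul_le_mul_of_nonneg_left h2.2 e3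
      have g3 := e4 hi
      linarith
    · have h5 : o / (u + o) = 1 - u / (u + o) := by linarith
      have h6 : u / (u + o) * (u + o) = u := by field_simp
      have h7 : P.2 = a * P.1 + b + u := by linarith
      have h8 : O.2 = a * O.1 + b - o := by linarith
      rw [h5, h7, h8]
      linear_combination -h6

theorem build {n : ℕ} (c : Fin n → Bool) (al be lo hi : Fin n → ℝ) (Pt Qt : Fin n → ℝ × ℝ)
    (O : ℝ × ℝ)
    (h1 : ∀ v w, c v = false → c w = true → lo w ≤ (Pt v).1 ∧ (Pt v).1 ≤ hi w)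
    (h1' : ∀ w, c w = true → lo w ≤ O.1 ∧ O.1 ≤ hi w)
    (h2 : ∀ w, c w = true → O.2 < al w * O.1 + be w)
    (h3 : ∀ v w, c v = false → c w = true → (Qt v).2 < al w * (Qt v).1 + be w)
    (h4 : ∀ v, c v = false → O ∈ segment ℝ (Qt v) (Pt v))
    (h5 : ∀ v w, c v = true → c w = true → v ≠ w → ∃ X, lo v ≤ X ∧ X ≤ hi v ∧ lo w ≤ X ∧
      X ≤ hi w ∧ al v * X + be v = al w * X + be w) :
    ∃ p q : Fin n → ℝ × ℝ,
      (∀ v, c v = true → p v = (lo v, al v * lo v + be v) ∧ q v = (hi v, al v * hi v + be v)) ∧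
      (∀ v, c v = false → p v = Qt v ∧ q v = Pt v) ∧ TwoCliques (iGraph p q) ∧
      ∀ v w, c v = false → c w = true →
        ((iGraph p q).Adj v w ↔ al w * (Pt v).1 + be w ≤ (Pt v).2) := by
  obtain ⟨p, hp⟩ : ∃ p : Fin n → ℝ × ℝ, p = fun v =>
    if c v = true then (lo v, al v * lo v + be v) else Qt v := ⟨_, rfl⟩
  obtain ⟨q, hq⟩ : ∃ q : Fin n → ℝ × ℝ, q = fun v =>
    if c v = true then (hi v, al v * hi v + be v) else Pt v := ⟨_, rfl⟩
  have e1 : ∀ v, c v = true →
      p v = (lo v, al v * lo v + be v) ∧ q v = (hi v, al v * hi v + be v) := by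
    intro v hv
    rw [hp, hq]
    exact ⟨if_pos hv, if_pos hv⟩
  have e2 : ∀ v, c v = false → p v = Qt v ∧ q v = Pt v := by
    intro v hv
    have hv' : ¬ c v = true := by rw [hv]; decide
    rw [hp, hq]
    exact ⟨if_neg hv', if_neg hv'⟩
  refine ⟨p, q, e1, e2, ⟨c, ?_⟩, ?_⟩
  · intro v w hvw hc
    refine ⟨hvw, ?_⟩
    rcases hcv : c v with _ | _
    · have hcw : c w = false := by rw [← hc, hcv]
      refine ⟨O, ?_, ?_⟩
      · rw [(e2 v hcv).1, (e2 v hcv).2]; exact h4 v hcv
      · rw [(e2 w hcw).1, (e2 w hcw).2]; exact h4 w hcw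
    · have hcw : c w = true := by rw [← hc, hcv]
      obtain ⟨X, g1, g2, g3, g4, g5⟩ := h5 v w hcv hcw hvw
      refine ⟨(X, al v * X + be v), ?_, ?_⟩
      · rw [(e1 v hcv).1, (e1 v hcv).2]
        exact (mem_seg (p := (lo v, al v * lo v + be v)) (q := (hi v, al v * hi v + be v)) rfl rfl
          (le_trans g1 g2)).mpr ⟨g1, g2, rfl⟩
      · rw [(e1 w hcw).1, (e1 w hcw).2]
        exact (mem_seg (p := (lo w, al w * lo w + be w)) (q := (hi w, al w * hi w + be w)) rfl rfl
          (le_trans g3 g4)).mpr ⟨g3, g4, g5⟩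
  · intro v w hcv hcw
    have hvw : v ≠ w := by
      rintro rfl
      rw [hcv] at hcw
      cases hcw
    have h6 : (iGraph p q).Adj v w ↔
        (segment ℝ (p v) (q v) ∩ segment ℝ (p w) (q w)).Nonempty :=
      ⟨fun h => h.2, fun h => ⟨hvw, h⟩⟩
    rw [h6, (e2 v hcv).1, (e2 v hcv).2, (e1 w hcw).1, (e1 w hcw).2]
    exact meet_iff (h1 v w hcv hcw) (h1' w hcw) (h2 w hcw) (h3 v w hcv hcw) (h4 v hcv)

/-- From a class of segment graphs to the graphs of points and lines. -/
theorem transfer_build {C : Cls} (hC : HasELR C)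
    (h : ∀ n (c : Fin n → Bool) (x y : Fin n → ℝ),
      (∀ v w, c v = true → c w = true → v ≠ w → x v ≠ x w) →
      (∀ v w, c v = false → c w = true → x w * x v + y w ≠ y v) →
      ∃ H : SimpleGraph (Fin n), C n H ∧ ∀ v w, c v = false → c w = true →
        (H.Adj v w ↔ x w * x v + y w ≤ y v)) : HasELR PointLine := by
  refine hC.transfer fun n G hG => ?_
  obtain ⟨c, x, y, hadj⟩ := hG
  obtain ⟨x', y', h1, h2⟩ := robust c x y
  obtain ⟨H, hH, hH2⟩ := h n c x' y' h2 (fun v w hv hw he => by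
    rcases le_or_gt (x w * x v + y w) (y v) with h3 | h3
    · exact absurd he ((h1 v w hv hw).1 h3).ne
    · exact absurd he ((h1 v w hv hw).2 h3).ne')
  refine ⟨H, c, hH, fun v w hvw => ?_⟩
  have key : ∀ v w, c v = false → c w = true → (H.Adj v w ↔ x w * x v + y w ≤ y v) := by
    intro v w hv hw
    rw [hH2 v w hv hw]
    constructor
    · intro h3
      by_contra h4
      rw [not_le] at h4
      exact absurd ((h1 v w hv hw).2 h4) (not_lt.mpr h3)
    · intro h3
      exact ((h1 v w hv hw).1 h3).le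
  rw [hadj]
  rcases hv : c v with _ | _ <;> rcases hw : c w with _ | _
  · simp
  · simp [key v w hv hw]
  · have := key w v hw hv
    rw [H.adj_comm] at this
    simp [this]
  · simp

end Pool.Agent.Helper58.SG
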