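import Pool.Agent.Helper58.SG.Main2
import Pool.Agent.Helper58.SG.Main3

set_option autoImplicit false

namespace Pool.Agent.Helper58.SG

/-- The bilinear form. -/
def dot3 (u w : ℝ × ℝ × ℝ) : ℝ := u.1 * w.1 + u.2.1 * w.2.1 + u.2.2 * w.2.2

/-- Graphs given by the sign of the products of two families of vectors. -/
def Bil3 : Cls := fun n G => ∃ u w : Fin n → ℝ × ℝ × ℝ, ∀ a b : Fin n, a ≠ b →
  (G.Adj a b ↔ 0 ≤ dot3 (u a) (w b))

/-- Graphs of products of vectors of the plane. -/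
def Dot2 : Cls := fun n G => ∃ x y : Fin n → ℝ, ∀ v w : Fin n, v ≠ w →
  (G.Adj v w ↔ 1 ≤ x v * x w + y v * y w)

/-- Bipartite graphs of sign rank at most three. -/
def Sign3 : Cls := fun n G => ∃ (c : Fin n → Bool) (u : Fin n → ℝ × ℝ × ℝ), ∀ v w : Fin n,
  G.Adj v w ↔ c v ≠ c w ∧ 0 ≤ dot3 (u v) (u w)

/-- A parameter in general position. -/
theorem gen {ι : Type} [Finite ι] (a b : ι → ℝ) :
    ∃ e : ℝ, ∀ i, (a i ≠ 0 ∨ b i ≠ 0) → a i + e * b i ≠ 0 := by
  have h1 : (⋃ i : ι, {e : ℝ | (a i ≠ 0 ∨ b i ≠ 0) ∧ a i + e * b i = 0}).Finite := by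
    refine Set.finite_iUnion fun i => Set.Subsingleton.finite ?_
    rintro e ⟨hi, he⟩ e' ⟨-, he'⟩
    have h3 : (e - e') * b i = 0 := by linear_combination he - he'
    rcases mul_eq_zero.mp h3 with h4 | h4
    · exact sub_eq_zero.mp h4
    · exfalso
      rw [h4, mul_zero, add_zero] at he
      rcases hi with h5 | h5
      · exact h5 he
      · exact h5 h4
  obtain ⟨e, he⟩ := h1.infinite_compl.nonempty
  exact ⟨e, fun i hi h => he (Set.mem_iUnion.mpr ⟨i, hi, h⟩)⟩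

/-- Coordinates in general position. -/
theorem gen3 {n : ℕ} (u w : Fin n → ℝ × ℝ × ℝ) : ∃ p l : Fin n → ℝ × ℝ × ℝ,
    (∀ i j, dot3 (p i) (l j) = dot3 (u i) (w j)) ∧
    (∀ i, (p i).2.2 = 0 → u i = 0) ∧ (∀ i, (l i).2.1 = 0 → w i = 0) := by
  obtain ⟨e1, h1⟩ := gen (fun i => (u i).2.2) (fun i => (u i).1)
  obtain ⟨e2, h2⟩ := gen (fun i => (u i).2.2 + e1 * (u i).1) (fun i => (u i).2.1)
  obtain ⟨f1, h3⟩ := gen (fun i => (w i).2.1 - e2 * (w i).2.2) (fun i => (w i).1 - e1 * (w i).2.2)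
  obtain ⟨f2, h4⟩ := gen (ι := Fin n ⊕ Fin n)
    (Sum.elim (fun i => ((w i).2.1 - e2 * (w i).2.2) + f1 * ((w i).1 - e1 * (w i).2.2))
      (fun i => (u i).2.2 + e1 * (u i).1 + e2 * (u i).2.1))
    (Sum.elim (fun i => (w i).2.2) (fun i => - (u i).2.1))
  refine ⟨fun i => ((u i).1 - f1 * (u i).2.1, (u i).2.1,
      (u i).2.2 + e1 * (u i).1 + e2 * (u i).2.1 - f2 * (u i).2.1),
    fun i => ((w i).1 - e1 * (w i).2.2,
      ((w i).2.1 - e2 * (w i).2.2) + f1 * ((w i).1 - e1 * (w i).2.2) + f2 * (w i).2.2,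
      (w i).2.2), ?_, ?_, ?_⟩
  · intro i j
    unfold dot3
    ring
  · intro i hi
    have hi : (u i).2.2 + e1 * (u i).1 + e2 * (u i).2.1 - f2 * (u i).2.1 = 0 := hi
    have h5 := h4 (Sum.inr i)
    simp only [Sum.elim_inr] at h5
    have h6 : (u i).2.2 + e1 * (u i).1 + e2 * (u i).2.1 = 0 ∧ (u i).2.1 = 0 := by
      by_contra hne
      apply h5 ?_ (by linear_combination hi)
      by_contra h7
      push Not at h7
      exact hne ⟨h7.1, neg_eq_zero.mp h7.2⟩
    have h7 : (u i).2.2 + e1 * (u i).1 = 0 := by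
      have := h6.1
      rw [h6.2] at this
      linarith
    have h8 : (u i).2.2 = 0 ∧ (u i).1 = 0 := by
      by_contra hne
      refine h1 i ?_ h7
      by_contra h9
      push Not at h9
      exact hne h9
    exact Prod.ext h8.2 (Prod.ext h6.2 h8.1)
  · intro i hi
    have hi : ((w i).2.1 - e2 * (w i).2.2) + f1 * ((w i).1 - e1 * (w i).2.2) + f2 * (w i).2.2 = 0 :=
      hi
    have h5 := h4 (Sum.inl i)
    simp only [Sum.elim_inl] at h5
    have h6 : ((w i).2.1 - e2 * (w i).2.2) + f1 * ((w i).1 - e1 * (w i).2.2) = 0 ∧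
        (w i).2.2 = 0 := by
      by_contra hne
      apply h5 ?_ (by linear_combination hi)
      by_contra h7
      push Not at h7
      exact hne ⟨h7.1, h7.2⟩
    have h8 : (w i).2.1 - e2 * (w i).2.2 = 0 ∧ (w i).1 - e1 * (w i).2.2 = 0 := by
      by_contra hne
      refine h3 i ?_ h6.1
      by_contra h9
      push Not at h9
      exact hne h9
    have h9 : (w i).2.1 = 0 := by have := h8.1; rw [h6.2] at this; linarith
    have h10 : (w i).1 = 0 := by have := h8.2; rw [h6.2] at this; linarith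
    exact Prod.ext h10 (Prod.ext h9 h6.2)

/-- The sign. -/
noncomputable def sg (t : ℝ) : ℕ := if t = 0 then 0 else if 0 < t then 1 else 2

theorem sg_le (t : ℝ) : sg t ≤ 2 := by unfold sg; split_ifs <;> omega

theorem nonneg_neg {a b : ℝ} (h : a < 0) : 0 ≤ a * b ↔ b ≤ 0 :=
  ⟨fun h1 => by by_contra h2; push Not at h2; nlinarith, fun h1 =>
    mul_nonneg_of_nonpos_of_nonpos h.le h1⟩

/-- The test. -/
def testB (f : ℕ → ℕ → Prop) (z w : ℕ) : Prop :=
  c1 z = 0 ∨ c2 w = 0 ∨ (c1 z = c2 w ∧ f (c3 z) (c4 w)) ∨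
    (c1 z ≠ c2 w ∧ c1 z ≠ 0 ∧ c2 w ≠ 0 ∧ f (c5 z) (c6 w))

theorem bil_of_pointLine (h : HasELR PointLine) : HasELR Bil3 := by
  obtain ⟨k, f, hf⟩ := h
  refine ⟨24 * (k + 2), testB f, fun n G hG => ?_⟩
  obtain ⟨u, w, hrep⟩ := hG
  rcases Nat.lt_or_ge n 2 with hn | hn
  · refine ⟨fun _ => 0, fun v => Nat.pow_pos (Nat.pos_of_ne_zero ?_), fun v w hvw => ?_⟩
    · rintro rfl; exact v.elim0
    · exfalso
      apply hvw
      ext
      have := v.2
      have := w.2
      omega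
  obtain ⟨p, l, h1, h2, h3⟩ := gen3 u w
  obtain ⟨A, hA1, hA2⟩ := labels hf n
    (fun t => if t.1 = 0 then (p t.2).1 / (p t.2).2.2 else - (l t.2).1 / (l t.2).2.1)
    (fun t => if t.1 = 0 then (p t.2).2.1 / (p t.2).2.2 else - (l t.2).2.2 / (l t.2).2.1)
  obtain ⟨B, hB1, hB2⟩ := labels hf n
    (fun t => if t.1 = 0 then (p t.2).1 / (p t.2).2.2 else (l t.2).1 / (l t.2).2.1)
    (fun t => if t.1 = 0 then - ((p t.2).2.1 / (p t.2).2.2) else (l t.2).2.2 / (l t.2).2.1)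
  have tA : ∀ v w, f (A (0, v)) (A (2, w)) ↔
      - (l w).1 / (l w).2.1 * ((p v).1 / (p v).2.2) + - (l w).2.2 / (l w).2.1 ≤
        (p v).2.1 / (p v).2.2 := by
    intro v w
    have := hA2 0 v w (by decide)
    simpa using this
  have tB : ∀ v w, f (B (0, v)) (B (2, w)) ↔
      (l w).1 / (l w).2.1 * ((p v).1 / (p v).2.2) + (l w).2.2 / (l w).2.1 ≤
        - ((p v).2.1 / (p v).2.2) := by
    intro v w
    have := hB2 0 v w (by decide)
    simpa using this
  obtain ⟨code, hcode⟩ : ∃ code : Fin n → ℕ, ∀ v, code v = enc (sg (p v).2.2) (sg (l v).2.1)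
      (A (0, v)) (A (2, v)) (B (0, v)) (B (2, v)) 0 0 := ⟨_, fun _ => rfl⟩
  refine ⟨code, fun v => ?_, fun v w' hvw => ?_⟩
  · have hB0 : (3 * n) ^ k ≤ (3 * n) ^ (k + 2) := Nat.pow_le_pow_right (by omega) (by omega)
    have hr : 2 < (3 * n) ^ (k + 2) := by
      calc 2 < (3 * n) ^ 1 := by rw [pow_one]; omega
        _ ≤ (3 * n) ^ (k + 2) := Nat.pow_le_pow_right (by omega) (by omega)
    rw [hcode]
    calc enc (sg (p v).2.2) (sg (l v).2.1)
          (A (0, v)) (A (2, v)) (B (0, v)) (B (2, v)) 0 0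
        < ((3 * n) ^ (k + 2)) ^ 8 :=
          enc_lt (lt_of_le_of_lt (sg_le _) hr) (lt_of_le_of_lt (sg_le _) hr)
            (lt_of_lt_of_le (hA1 _) hB0) (lt_of_lt_of_le (hA1 _) hB0)
            (lt_of_lt_of_le (hB1 _) hB0) (lt_of_lt_of_le (hB1 _) hB0)
            (by omega) (by omega)
      _ = (3 * n) ^ (8 * (k + 2)) := by rw [← pow_mul]; congr 1; ring
      _ ≤ (n ^ 3) ^ (8 * (k + 2)) := by
          refine Nat.pow_le_pow_left ?_ _
          have : 2 * 2 ≤ n * n := Nat.mul_le_mul hn hn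
          calc 3 * n ≤ (n * n) * n := Nat.mul_le_mul_right _ (by omega)
            _ = n ^ 3 := by ring
      _ = n ^ (24 * (k + 2)) := by rw [← pow_mul]; congr 1; ring
  · have e1 : c1 (code v) = sg (p v).2.2 := by rw [hcode]; simp [enc, c1]
    have e2 : c2 (code w') = sg (l w').2.1 := by rw [hcode]; simp [enc, c2]
    have e3 : c3 (code v) = A (0, v) := by rw [hcode]; simp [enc, c3]
    have e4 : c4 (code w') = A (2, w') := by rw [hcode]; simp [enc, c4]
    have e5 : c5 (code v) = B (0, v) := by rw [hcode]; simp [enc, c5]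
    have e6 : c6 (code w') = B (2, w') := by rw [hcode]; simp [enc, c6]
    rw [hrep v w' hvw]
    unfold testB
    rw [e1, e2, e3, e4, e5, e6, tA, tB, ← h1 v w']
    by_cases hp : (p v).2.2 = 0
    · have h4 : sg (p v).2.2 = 0 := by unfold sg; rw [if_pos hp]
      rw [h1, h2 v hp]
      simp [h4, dot3]
    by_cases hl : (l w').2.1 = 0
    · have h4 : sg (l w').2.1 = 0 := by unfold sg; rw [if_pos hl]
      rw [h1, h3 w' hl]
      simp [h4, dot3]
    have hp0 : sg (p v).2.2 ≠ 0 := by unfold sg; rw [if_neg hp]; split_ifs <;> omega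
    have hl0 : sg (l w').2.1 ≠ 0 := by unfold sg; rw [if_neg hl]; split_ifs <;> omega
    have key : dot3 (p v) (l w') = (p v).2.2 * (l w').2.1 *
        ((p v).2.1 / (p v).2.2 + (l w').1 / (l w').2.1 * ((p v).1 / (p v).2.2) +
          (l w').2.2 / (l w').2.1) := by
      unfold dot3
      field_simp
      ring
    have hA3 : (- (l w').1 / (l w').2.1 * ((p v).1 / (p v).2.2) + - (l w').2.2 / (l w').2.1 ≤
        (p v).2.1 / (p v).2.2) ↔ 0 ≤ (p v).2.1 / (p v).2.2 + (l w').1 / (l w').2.1 *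
          ((p v).1 / (p v).2.2) + (l w').2.2 / (l w').2.1 := by
      rw [neg_div, neg_div]
      constructor <;> intro h5 <;> linarith
    have hB3 : ((l w').1 / (l w').2.1 * ((p v).1 / (p v).2.2) + (l w').2.2 / (l w').2.1 ≤
        - ((p v).2.1 / (p v).2.2)) ↔ (p v).2.1 / (p v).2.2 + (l w').1 / (l w').2.1 *
          ((p v).1 / (p v).2.2) + (l w').2.2 / (l w').2.1 ≤ 0 := by
      constructor <;> intro h5 <;> linarith
    rw [hA3, hB3, key]
    obtain ⟨E, hE⟩ : ∃ E, E = (p v).2.1 / (p v).2.2 + (l w').1 / (l w').2.1 *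
          ((p v).1 / (p v).2.2) + (l w').2.2 / (l w').2.1 := ⟨_, rfl⟩
    rw [← hE]
    simp only [hp0, hl0, false_or, not_false_eq_true, true_and, ne_eq]
    rcases lt_or_gt_of_ne hp with hp1 | hp1 <;> rcases lt_or_gt_of_ne hl with hl1 | hl1
    · have e7 : sg (p v).2.2 = 2 := by unfold sg; rw [if_neg hp, if_neg (not_lt.mpr hp1.le)]
      have e8 : sg (l w').2.1 = 2 := by unfold sg; rw [if_neg hl, if_neg (not_lt.mpr hl1.le)]
      have e9 : 0 < (p v).2.2 * (l w').2.1 := mul_pos_of_neg_of_neg hp1 hl1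
      rw [e7, e8]
      simp [mul_nonneg_iff_of_pos_left e9]
    · have e7 : sg (p v).2.2 = 2 := by unfold sg; rw [if_neg hp, if_neg (not_lt.mpr hp1.le)]
      have e8 : sg (l w').2.1 = 1 := by unfold sg; rw [if_neg hl, if_pos hl1]
      have e9 : (p v).2.2 * (l w').2.1 < 0 := mul_neg_of_neg_of_pos hp1 hl1
      rw [e7, e8]
      simp [nonneg_neg e9]
    · have e7 : sg (p v).2.2 = 1 := by unfold sg; rw [if_neg hp, if_pos hp1]
      have e8 : sg (l w').2.1 = 2 := by unfold sg; rw [if_neg hl, if_neg (not_lt.mpr hl1.le)]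
      have e9 : (p v).2.2 * (l w').2.1 < 0 := mul_neg_of_pos_of_neg hp1 hl1
      rw [e7, e8]
      simp [nonneg_neg e9]
    · have e7 : sg (p v).2.2 = 1 := by unfold sg; rw [if_neg hp, if_pos hp1]
      have e8 : sg (l w').2.1 = 1 := by unfold sg; rw [if_neg hl, if_pos hl1]
      have e9 : 0 < (p v).2.2 * (l w').2.1 := mul_pos hp1 hl1
      rw [e7, e8]
      simp [mul_nonneg_iff_of_pos_left e9]

end Pool.Agent.Helper58.SG
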