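import Mathlib

set_option autoImplicit false

namespace Pool.Agent.Helper58.SG

/-- A class of graphs on the vertex sets `Fin n`. -/
abbrev Cls := ∀ n : ℕ, SimpleGraph (Fin n) → Prop

/-- The class has an efficient local representation. -/
def HasELR (C : Cls) : Prop :=
  ∃ k : ℕ, ∃ f : ℕ → ℕ → Prop, ∀ n : ℕ, ∀ G : SimpleGraph (Fin n), C n G →
    ∃ l : Fin n → ℕ, (∀ v, l v < n ^ k) ∧ ∀ v w : Fin n, v ≠ w → (G.Adj v w ↔ f (l v) (l w))

/-- `p v`, `q v` are the end points of segments which represent the graph. -/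
def Rep {n : ℕ} (G : SimpleGraph (Fin n)) (p q : Fin n → ℝ × ℝ) : Prop :=
  ∀ v w : Fin n, v ≠ w →
    (G.Adj v w ↔ (segment ℝ (p v) (q v) ∩ segment ℝ (p w) (q w)).Nonempty)

/-- The vertices are covered by two cliques. -/
def TwoCliques {n : ℕ} (G : SimpleGraph (Fin n)) : Prop :=
  ∃ c : Fin n → Bool, ∀ v w : Fin n, v ≠ w → c v = c w → G.Adj v w

/-- Segment graphs. -/
def Seg : Cls := fun _ G => ∃ p q, Rep G p q

/-- Graphs of unit segments which are a union of two cliques. -/
def UnitTwo : Cls := fun _ G =>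
  TwoCliques G ∧ ∃ p q, Rep G p q ∧ ∀ v, ((q v).1 - (p v).1) ^ 2 + ((q v).2 - (p v).2) ^ 2 = 1

/-- Graphs of grounded segments which are a union of two cliques. -/
def GroundedTwo : Cls := fun _ G =>
  TwoCliques G ∧ ∃ p q, Rep G p q ∧ ∀ v, (p v).2 = 0 ∧ 0 < (q v).2

/-- Bipartite graphs of points and lines: the point `(x v, y v)` is adjacent to the line
`Y = x w * X + y w` if it is on or above the line. -/
def PointLine : Cls := fun n G =>
  ∃ (c : Fin n → Bool) (x y : Fin n → ℝ), ∀ v w : Fin n, G.Adj v w ↔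
    (c v = false ∧ c w = true ∧ x w * x v + y w ≤ y v) ∨
    (c w = false ∧ c v = true ∧ x v * x w + y v ≤ y w)

theorem HasELR.mono {C D : Cls} (h : ∀ n G, C n G → D n G) (hD : HasELR D) : HasELR C := by
  obtain ⟨k, f, hf⟩ := hD
  exact ⟨k, f, fun n G hG => hf n G (h n G hG)⟩

/-- Labels for a class whose graphs are got from the graphs of another class by removing the edges
inside the two parts of a partition. -/
theorem HasELR.transfer {C D : Cls} (hC : HasELR C)
    (h : ∀ n (G : SimpleGraph (Fin n)), D n G → ∃ (H : SimpleGraph (Fin n)) (c : Fin n → Bool),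
      C n H ∧ ∀ v w, v ≠ w → (G.Adj v w ↔ c v ≠ c w ∧ H.Adj v w)) : HasELR D := by
  obtain ⟨k, f, hf⟩ := hC
  refine ⟨k + 1, fun a b => a % 2 ≠ b % 2 ∧ f (a / 2) (b / 2), fun n G hG => ?_⟩
  obtain ⟨H, c, hH, hadj⟩ := h n G hG
  obtain ⟨l, hl, hl2⟩ := hf n H hH
  rcases Nat.lt_or_ge n 2 with hn | hn
  · refine ⟨fun _ => 0, fun v => Nat.pow_pos (Nat.pos_of_ne_zero ?_), fun v w hvw => ?_⟩
    · rintro rfl; exact v.elim0
    · exfalso
      apply hvw
      ext
      have := v.2
      have := w.2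
      omega
  · refine ⟨fun v => 2 * l v + (if c v then 1 else 0), fun v => ?_, fun v w hvw => ?_⟩
    · have h1 := hl v
      have h2 : (if c v then 1 else 0) ≤ 1 := by split_ifs <;> simp
      calc 2 * l v + (if c v then 1 else 0) < 2 * n ^ k := by omega
        _ ≤ n * n ^ k := Nat.mul_le_mul_right _ hn
        _ = n ^ (k + 1) := by ring
    · have e1 : ∀ u, (2 * l u + (if c u then 1 else 0)) / 2 = l u := by
        intro u; split_ifs <;> omega
      have e2 : ∀ u, (2 * l u + (if c u then 1 else 0)) % 2 = if c u then 1 else 0 := by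
        intro u; split_ifs <;> omega
      rw [hadj v w hvw, hl2 v w hvw]
      show _ ↔ _ ≠ _ ∧ f _ _
      rw [e1, e1, e2, e2]
      cases c v <;> cases c w <;> simp

end Pool.Agent.Helper58.SG
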