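import Pool.Agent.Helper58.SG.Main3

set_option autoImplicit false

namespace Pool.Agent.Helper58.SG

open Filter Topology

/-- Unit disk graphs (disks of diameter 1 with the centres `p v`) which are a union of two
cliques. -/
def DiskTwo : Cls := fun n G => TwoCliques G ∧ ∃ p : Fin n → ℝ × ℝ, ∀ v w : Fin n, v ≠ w →
  (G.Adj v w ↔ ((p v).1 - (p w).1) ^ 2 + ((p v).2 - (p w).2) ^ 2 ≤ 1)

theorem pl_of_disk (hC : HasELR DiskTwo) : HasELR PointLine := by
  refine transfer_build hC fun n c x y _ hne => ?_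
  have h1 : ∀ᶠ t in 𝓝[>] (0 : ℝ), ∀ v w : Fin n,
      (x w * x v + y w - y v < 0 →
        t ^ 2 * (y w - x w ^ 2 / 2 - y v - x v ^ 2 / 2) ^ 2 < -(2 * (x w * x v + y w - y v))) ∧
      (t * x v - t * x w) ^ 2 +
        (t ^ 2 * (y v + x v ^ 2 / 2) - t ^ 2 * (y w + x w ^ 2 / 2)) ^ 2 < 1 ∧
      (-(t * x v) - -(t * x w)) ^ 2 +
        (1 + t ^ 2 * (y v - x v ^ 2 / 2) - (1 + t ^ 2 * (y w - x w ^ 2 / 2))) ^ 2 < 1 := by
    rw [eventually_all]; intro v
    rw [eventually_all]; intro w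
    refine Eventually.and ?_ (Eventually.and ?_ ?_)
    · by_cases h : x w * x v + y w - y v < 0
      · have h2 : ∀ᶠ t in 𝓝 (0 : ℝ), t ^ 2 * (y w - x w ^ 2 / 2 - y v - x v ^ 2 / 2) ^ 2 <
            -(2 * (x w * x v + y w - y v)) := by
          refine ContinuousAt.eventually_lt (by fun_prop) continuousAt_const ?_
          have : 0 < -(2 * (x w * x v + y w - y v)) := by linarith
          simpa using this
        exact (h2.filter_mono nhdsWithin_le_nhds).mono fun e he _ => he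
      · exact Eventually.of_forall fun e h3 => absurd h3 h
    · have h2 : ∀ᶠ t in 𝓝 (0 : ℝ), (t * x v - t * x w) ^ 2 +
        (t ^ 2 * (y v + x v ^ 2 / 2) - t ^ 2 * (y w + x w ^ 2 / 2)) ^ 2 < 1 := by
        refine ContinuousAt.eventually_lt (by fun_prop) continuousAt_const ?_
        simp
      exact h2.filter_mono nhdsWithin_le_nhds
    · have h2 : ∀ᶠ t in 𝓝 (0 : ℝ), (-(t * x v) - -(t * x w)) ^ 2 +
        (1 + t ^ 2 * (y v - x v ^ 2 / 2) - (1 + t ^ 2 * (y w - x w ^ 2 / 2))) ^ 2 < 1 := by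
        refine ContinuousAt.eventually_lt (by fun_prop) continuousAt_const ?_
        simp
      exact h2.filter_mono nhdsWithin_le_nhds
  obtain ⟨t, ht, ht0⟩ := (h1.and (eventually_mem_nhdsWithin)).exists
  have ht0 : 0 < t := ht0
  obtain ⟨p, hp⟩ : ∃ p : Fin n → ℝ × ℝ, ∀ v, p v =
      if c v = true then (-(t * x v), 1 + t ^ 2 * (y v - x v ^ 2 / 2))
      else (t * x v, t ^ 2 * (y v + x v ^ 2 / 2)) := ⟨_, fun _ => rfl⟩
  refine ⟨⟨fun v w => v ≠ w ∧ ((p v).1 - (p w).1) ^ 2 + ((p v).2 - (p w).2) ^ 2 ≤ 1,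
    ⟨fun v w hvw => ⟨hvw.1.symm, by
      have := hvw.2
      linarith [sq_nonneg ((p v).1 - (p w).1), mul_comm (p v).1 (p w).1]⟩⟩,
    ⟨fun v hv => hv.1 rfl⟩⟩, ⟨⟨c, fun v w hvw hc => ⟨hvw, ?_⟩⟩, p, fun v w hvw => ?_⟩,
    fun v w hv hw => ?_⟩
  · rw [hp, hp, ← hc]
    rcases hcv : c v with _ | _
    · simp only [Bool.false_eq_true, if_false]
      exact (ht v w).2.1.le
    · simp only [if_true]
      exact (ht v w).2.2.le
  · exact ⟨fun h1 => h1.2, fun h1 => ⟨hvw, h1⟩⟩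
  · have hvw : v ≠ w := by
      rintro rfl
      rw [hv] at hw
      cases hw
    show v ≠ w ∧ _ ≤ (1 : ℝ) ↔ _
    rw [hp, hp, hv, hw]
    simp only [Bool.false_eq_true, if_false, if_true]
    have e : (t * x v - -(t * x w)) ^ 2 +
        (t ^ 2 * (y v + x v ^ 2 / 2) - (1 + t ^ 2 * (y w - x w ^ 2 / 2))) ^ 2 =
        1 + t ^ 2 * (2 * (x w * x v + y w - y v) +
          t ^ 2 * (y w - x w ^ 2 / 2 - y v - x v ^ 2 / 2) ^ 2) := by ring
    rw [e]
    have ht2 : 0 < t ^ 2 := by positivity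
    constructor
    · rintro ⟨-, h2⟩
      by_contra h3
      have h4 : 0 < x w * x v + y w - y v := by linarith
      have h5 : 0 < t ^ 2 * (2 * (x w * x v + y w - y v) +
          t ^ 2 * (y w - x w ^ 2 / 2 - y v - x v ^ 2 / 2) ^ 2) := by positivity
      linarith
    · intro h2
      refine ⟨hvw, ?_⟩
      have h3 : x w * x v + y w - y v < 0 := by
        rcases lt_or_eq_of_le h2 with h4 | h4
        · linarith
        · exact absurd h4 (hne v w hv hw)
      have h4 := (ht v w).1 h3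
      have h5 : t ^ 2 * (2 * (x w * x v + y w - y v) +
          t ^ 2 * (y w - x w ^ 2 / 2 - y v - x v ^ 2 / 2) ^ 2) ≤ 0 :=
        mul_nonpos_of_nonneg_of_nonpos ht2.le (by linarith)
      linarith

end Pool.Agent.Helper58.SG
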