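import Mathlib

set_option autoImplicit false

namespace Pool.Agent.Helper58.SG

/-- The points of a segment on a line which is not vertical. -/
theorem mem_seg {p q z : ℝ × ℝ} {a b : ℝ} (hp : p.2 = a * p.1 + b) (hq : q.2 = a * q.1 + b)
    (hpq : p.1 ≤ q.1) : z ∈ segment ℝ p q ↔ p.1 ≤ z.1 ∧ z.1 ≤ q.1 ∧ z.2 = a * z.1 + b := by
  constructor
  · rintro ⟨s, t, hs, ht, hst, rfl⟩
    simp only [Prod.fst_add, Prod.smul_fst, Prod.snd_add, Prod.smul_snd, smul_eq_mul]
    have h1 : s = 1 - t := by linarith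
    subst h1
    refine ⟨by nlinarith, by nlinarith, ?_⟩
    rw [hp, hq]; ring
  · rintro ⟨h1, h2, h3⟩
    rcases eq_or_lt_of_le hpq with h4 | h4
    · have h5 : z.1 = p.1 := le_antisymm (h4 ▸ h2) h1
      have h6 : z = p := Prod.ext h5 (by rw [h3, hp, h5])
      rw [h6]
      exact left_mem_segment ℝ p q
    · have h5 : 0 < q.1 - p.1 := by linarith
      refine ⟨(q.1 - z.1) / (q.1 - p.1), (z.1 - p.1) / (q.1 - p.1), by
        apply div_nonneg <;> linarith, by apply div_nonneg <;> linarith, by field_simp; ring, ?_⟩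
      apply Prod.ext
      · simp only [Prod.fst_add, Prod.smul_fst, smul_eq_mul]
        field_simp
        ring
      · simp only [Prod.snd_add, Prod.smul_snd, smul_eq_mul]
        rw [hp, hq, h3]
        field_simp
        ring

/-- Intersection of two segments which are not vertical. -/
theorem inter_iff {p q p' q' : ℝ × ℝ} {a b a' b' : ℝ} (hp : p.2 = a * p.1 + b)
    (hq : q.2 = a * q.1 + b) (hpq : p.1 ≤ q.1) (hp' : p'.2 = a' * p'.1 + b')
    (hq' : q'.2 = a' * q'.1 + b') (hpq' : p'.1 ≤ q'.1) :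
    (segment ℝ p q ∩ segment ℝ p' q').Nonempty ↔
      ∃ X, p.1 ≤ X ∧ p'.1 ≤ X ∧ X ≤ q.1 ∧ X ≤ q'.1 ∧ a * X + b = a' * X + b' := by
  constructor
  · rintro ⟨z, h1, h2⟩
    rw [mem_seg hp hq hpq] at h1
    rw [mem_seg hp' hq' hpq'] at h2
    exact ⟨z.1, h1.1, h2.1, h1.2.1, h2.2.1, by rw [← h1.2.2, ← h2.2.2]⟩
  · rintro ⟨X, h1, h2, h3, h4, h5⟩
    refine ⟨(X, a * X + b), ?_, ?_⟩
    · rw [mem_seg hp hq hpq]
      exact ⟨h1, h3, rfl⟩
    · rw [mem_seg hp' hq' hpq']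
      exact ⟨h2, h4, h5⟩

/-- Zero of an affine function in an interval. -/
theorem affine_zero {a b l r : ℝ} (hlr : l ≤ r) :
    (∃ X, l ≤ X ∧ X ≤ r ∧ a * X + b = 0) ↔
      (a * l + b ≤ 0 ∧ 0 ≤ a * r + b) ∨ (0 ≤ a * l + b ∧ a * r + b ≤ 0) := by
  constructor
  · rintro ⟨X, h1, h2, h3⟩
    rcases le_total 0 a with h4 | h4
    · left
      constructor <;> nlinarith
    · right
      constructor <;> nlinarith
  · have hc : ContinuousOn (fun X : ℝ => a * X + b) (Set.Icc l r) := by fun_prop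
    rintro (⟨h1, h2⟩ | ⟨h1, h2⟩)
    · obtain ⟨X, hX, h3⟩ := intermediate_value_Icc hlr hc ⟨h1, h2⟩
      exact ⟨X, hX.1, hX.2, h3⟩
    · obtain ⟨X, hX, h3⟩ := intermediate_value_Icc' hlr hc ⟨h2, h1⟩
      exact ⟨X, hX.1, hX.2, h3⟩

/-- The criterion: `d = L - L'` changes its sign in the common interval; all quantities are
comparisons of first coordinates and positions of end points with respect to lines. -/
theorem crit {p q p' q' : ℝ × ℝ} {a b a' b' : ℝ} (hp : p.2 = a * p.1 + b)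
    (hq : q.2 = a * q.1 + b) (hpq : p.1 ≤ q.1) (hp' : p'.2 = a' * p'.1 + b')
    (hq' : q'.2 = a' * q'.1 + b') (hpq' : p'.1 ≤ q'.1) :
    (segment ℝ p q ∩ segment ℝ p' q').Nonempty ↔
      p.1 ≤ q'.1 ∧ p'.1 ≤ q.1 ∧
      (((if p'.1 ≤ p.1 then p.2 ≤ a' * p.1 + b' else a * p'.1 + b ≤ p'.2) ∧
        (if q.1 ≤ q'.1 then a' * q.1 + b' ≤ q.2 else q'.2 ≤ a * q'.1 + b)) ∨
       ((if p'.1 ≤ p.1 then a' * p.1 + b' ≤ p.2 else p'.2 ≤ a * p'.1 + b) ∧
        (if q.1 ≤ q'.1 then q.2 ≤ a' * q.1 + b' else a * q'.1 + b ≤ q'.2))) := by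
  rw [inter_iff hp hq hpq hp' hq' hpq']
  have key : (∃ X, p.1 ≤ X ∧ p'.1 ≤ X ∧ X ≤ q.1 ∧ X ≤ q'.1 ∧ a * X + b = a' * X + b') ↔
      max p.1 p'.1 ≤ min q.1 q'.1 ∧ ∃ X, max p.1 p'.1 ≤ X ∧ X ≤ min q.1 q'.1 ∧
        (a - a') * X + (b - b') = 0 := by
    constructor
    · rintro ⟨X, h1, h2, h3, h4, h5⟩
      have h6 : max p.1 p'.1 ≤ X := max_le h1 h2
      have h7 : X ≤ min q.1 q'.1 := le_min h3 h4
      exact ⟨le_trans h6 h7, X, h6, h7, by linear_combination h5⟩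
    · rintro ⟨-, X, h1, h2, h3⟩
      exact ⟨X, le_trans (le_max_left _ _) h1, le_trans (le_max_right _ _) h1,
        le_trans h2 (min_le_left _ _), le_trans h2 (min_le_right _ _), by linear_combination h3⟩
  rw [key]
  have e0 : max p.1 p'.1 ≤ min q.1 q'.1 ↔ p.1 ≤ q'.1 ∧ p'.1 ≤ q.1 := by
    constructor
    · intro h
      exact ⟨le_trans (le_max_left _ _) (le_trans h (min_le_right _ _)),
        le_trans (le_max_right _ _) (le_trans h (min_le_left _ _))⟩
    · rintro ⟨h1, h2⟩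
      exact max_le (le_min hpq h1) (le_min h2 hpq')
  rw [← and_assoc, ← e0]
  refine and_congr_right fun hlr => ?_
  rw [affine_zero hlr]
  have el : max p.1 p'.1 = if p'.1 ≤ p.1 then p.1 else p'.1 := by
    split_ifs with h
    · exact max_eq_left h
    · exact max_eq_right (le_of_not_ge h)
  have er : min q.1 q'.1 = if q.1 ≤ q'.1 then q.1 else q'.1 := by
    split_ifs with h
    · exact min_eq_left h
    · exact min_eq_right (le_of_not_ge h)
  rw [el, er, hp, hq, hp', hq']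
  split_ifs with h1 h2 h2 <;>
    refine or_congr (and_congr ?_ ?_) (and_congr ?_ ?_) <;>
    constructor <;> intro h3 <;> linarith

end Pool.Agent.Helper58.SG
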