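import Pool.Agent.Helper58.SG.Main3

set_option autoImplicit false

namespace Pool.Agent.Helper58.SG

open Filter Topology

/-- An affine function with positive slope is eventually large. -/
theorem ev_aff (m : ℝ) (hm : 0 < m) (d K : ℝ) : ∀ᶠ C in (atTop : Filter ℝ), K < m * C + d := by
  filter_upwards [eventually_gt_atTop ((K - d) / m)] with C hC
  rw [div_lt_iff₀ hm] at hC
  linarith

theorem pl_of_grounded (hC : HasELR GroundedTwo) : HasELR PointLine := by
  refine transfer_build hC fun n c x y hsl hst => ?_
  -- the shear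
  have S1 : ∀ᶠ s in (atTop : Filter ℝ), ∀ w : Fin n, 0 < x w + s := by
    rw [eventually_all]; intro w
    filter_upwards [eventually_gt_atTop (- x w)] with s hs
    linarith
  obtain ⟨s, hs⟩ := S1.exists
  -- the right end
  have S2 : ∀ᶠ R in (atTop : Filter ℝ), (∀ v : Fin n, x v < R) ∧
      (∀ v w : Fin n, (y w - y v) / (x v - x w) < R) ∧ 0 < R := by
    refine Eventually.and ?_ (Eventually.and ?_ (eventually_gt_atTop 0))
    · rw [eventually_all]; intro v
      exact eventually_gt_atTop _
    · rw [eventually_all]; intro v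
      rw [eventually_all]; intro w
      exact eventually_gt_atTop _
  obtain ⟨R, hR1, hR2, hR0⟩ := S2.exists
  -- the height
  have T1 : ∀ᶠ C in (atTop : Filter ℝ), ∀ v w : Fin n,
      (- (x w + s) * x v < 1 * C + y w) ∧ (- (x w + s) * ((y w - y v) / (x v - x w)) < 1 * C + y w) := by
    rw [eventually_all]; intro v
    rw [eventually_all]; intro w
    exact (ev_aff 1 one_pos _ _).and (ev_aff 1 one_pos _ _)
  have T1' : ∀ᶠ C in (atTop : Filter ℝ), ∀ v w u : Fin n,
      - (x u + s) * ((y w - y v) / (x v - x w)) < 1 * C + y u := by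
    rw [eventually_all]; intro v
    rw [eventually_all]; intro w
    rw [eventually_all]; intro u
    exact ev_aff 1 one_pos _ _
  have T2 : ∀ᶠ C in (atTop : Filter ℝ), ∀ w : Fin n, (0 < (1 / 2) * C + y w) ∧
      (0 < 1 * C + y w) ∧ (0 < 1 * C + ((x w + s) * R + y w)) := by
    rw [eventually_all]; intro w
    exact (ev_aff _ (by norm_num) _ _).and ((ev_aff 1 one_pos _ _).and (ev_aff 1 one_pos _ _))
  have T3 : ∀ᶠ C in (atTop : Filter ℝ), ∀ v : Fin n, (0 < (1 / 2) * C + (y v + s * x v)) ∧
      (0 < (1 / 2) * C + 2 * (y v + s * x v)) ∧ 0 < 1 * C + (y v + s * x v) := by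
    rw [eventually_all]; intro v
    exact (ev_aff _ (by norm_num) _ _).and ((ev_aff _ (by norm_num) _ _).and
      (ev_aff 1 one_pos _ _))
  have T4 : ∀ᶠ C in (atTop : Filter ℝ), ∀ v w : Fin n,
      2 * |(x w + s) * x v| < 1 * C + y w := by
    rw [eventually_all]; intro v
    rw [eventually_all]; intro w
    exact ev_aff 1 one_pos _ _
  obtain ⟨C, t1, t1', t2, t3, t4, hC0⟩ :=
    (T1.and (T1'.and (T2.and (T3.and (T4.and (eventually_gt_atTop 0)))))).exists
  obtain ⟨lo, hlo⟩ : ∃ lo : Fin n → ℝ, lo = fun w => - (y w + C) / (x w + s) := ⟨_, rfl⟩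
  have hlo' : ∀ w X, - (x w + s) * X < C + y w → lo w ≤ X := by
    intro w X h
    rw [hlo]
    show - (y w + C) / (x w + s) ≤ X
    rw [div_le_iff₀ (hs w)]
    linarith
  -- the factor for the ground point
  obtain ⟨ta, hta⟩ : ∃ ta : Fin n → ℝ, ta = fun v =>
    (y v + s * x v + C) / (y v + s * x v + C / 2) := ⟨_, rfl⟩
  have htpos : ∀ v, 0 < y v + s * x v + C / 2 := fun v => by
    have := (t3 v).1
    linarith
  have hta1 : ∀ v, 1 < ta v ∧ ta v ≤ 3 := by
    intro v
    rw [hta]
    show 1 < (y v + s * x v + C) / (y v + s * x v + C / 2) ∧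
      (y v + s * x v + C) / (y v + s * x v + C / 2) ≤ 3
    constructor
    · rw [one_lt_div (htpos v)]; linarith
    · rw [div_le_iff₀ (htpos v)]
      have := (t3 v).2.1
      linarith
  obtain ⟨p, q, g1, g2, g3, g4⟩ := build c (fun v => x v + s) (fun v => y v + C) lo
    (fun _ => R) (fun v => (x v, y v + s * x v + C))
    (fun v => (x v * (1 - ta v), 0)) (0, C / 2)
    (fun v w _ _ => ⟨hlo' w _ (by have := (t1 v w).1; linarith), (hR1 v).le⟩)
    (fun w _ => ⟨hlo' w 0 (by have := (t2 w).2.1; linarith), hR0.le⟩)
    (fun w _ => by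
      show C / 2 < (x w + s) * 0 + (y w + C)
      have := (t2 w).1
      linarith)
    (fun v w _ _ => by
      show 0 < (x w + s) * (x v * (1 - ta v)) + (y w + C)
      have h6 := t4 v w
      have h7 := hta1 v
      have h8 : |(x w + s) * (x v * (1 - ta v))| ≤ 2 * |(x w + s) * x v| := by
        rw [← mul_assoc, abs_mul, mul_comm]
        refine mul_le_mul_of_nonneg_right ?_ (abs_nonneg _)
        rw [abs_le]
        constructor <;> linarith
      have h9 := neg_abs_le ((x w + s) * (x v * (1 - ta v)))
      linarith)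
    (fun v _ => by
      have h6 := htpos v
      have h7 := (hta1 v).1
      have h8 : ta v * (y v + s * x v + C / 2) = y v + s * x v + C := by
        rw [hta]
        exact div_mul_cancel₀ _ h6.ne'
      have h9 : ta v ≠ 0 := by linarith
      refine ⟨1 / ta v, 1 - 1 / ta v, by positivity, ?_, by ring, ?_⟩
      · have : 1 / ta v ≤ 1 := by
          rw [div_le_one (by linarith)]
          exact h7.le
        linarith
      · apply Prod.ext
        · simp only [Prod.fst_add, Prod.smul_fst, smul_eq_mul]
          field_simp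
          ring
        · simp only [Prod.snd_add, Prod.smul_snd, smul_eq_mul]
          have e1 : 1 / ta v * 0 + (1 - 1 / ta v) * (ta v * (y v + s * x v + C / 2)) =
              ta v * (y v + s * x v + C / 2) - (y v + s * x v + C / 2) := by
            field_simp
            ring
          rw [← h8, e1, h8]
          ring)
    (fun v w hv hw' hvw => by
      have hne : x v - x w ≠ 0 := sub_ne_zero.mpr (hsl v w hv hw' hvw)
      refine ⟨(y w - y v) / (x v - x w), hlo' v _ ?_, (hR2 v w).le, hlo' w _ ?_, (hR2 v w).le, ?_⟩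
      · have := t1' v w v; linarith
      · have := t1' v w w; linarith
      · show (x v + s) * ((y w - y v) / (x v - x w)) + (y v + C) =
          (x w + s) * ((y w - y v) / (x v - x w)) + (y w + C)
        field_simp
        ring)
  refine ⟨iGraph p q, ⟨g3, p, q, iGraph_rep p q, fun v => ?_⟩, fun v w hv hw' => ?_⟩
  · rcases hv : c v with _ | _
    · rw [(g2 v hv).1, (g2 v hv).2]
      refine ⟨rfl, ?_⟩
      show 0 < y v + s * x v + C
      have := (t3 v).2.2
      linarith
    · rw [(g1 v hv).1, (g1 v hv).2]
      refine ⟨?_, ?_⟩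
      · show (x v + s) * lo v + (y v + C) = 0
        rw [hlo]
        show (x v + s) * (- (y v + C) / (x v + s)) + (y v + C) = 0
        have := (hs v).ne'
        field_simp
        ring
      · show 0 < (x v + s) * R + (y v + C)
        have := (t2 v).2.2
        linarith
  · rw [g4 v w hv hw']
    show (x w + s) * x v + (y w + C) ≤ y v + s * x v + C ↔ _
    constructor
    · intro h6
      linarith
    · intro h6
      linarith

end Pool.Agent.Helper58.SG
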