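import Pool.Agent.Helper58.SG.Defs
import Pool.Agent.Helper58.SG.Geo

set_option autoImplicit false

namespace Pool.Agent.Helper58.SG

/-! ### Segments which are not vertical -/

/-- The shear. -/
noncomputable def shear (e : ℝ) : ℝ × ℝ →ₗ[ℝ] ℝ × ℝ where
  toFun z := (z.1 + e * z.2, z.2)
  map_add' z w := by
    apply Prod.ext
    · simp only [Prod.fst_add, Prod.snd_add]; ring
    · rfl
  map_smul' c z := by
    apply Prod.ext
    · simp only [Prod.smul_fst, Prod.smul_snd, smul_eq_mul, RingHom.id_apply]; ring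
    · rfl

theorem shear_inj (e : ℝ) : Function.Injective (shear e) := by
  intro z w h
  have h' : (z.1 + e * z.2, z.2) = (w.1 + e * w.2, w.2) := h
  have h2 : z.2 = w.2 := (Prod.ext_iff.mp h').2
  have h1 : z.1 + e * z.2 = w.1 + e * w.2 := (Prod.ext_iff.mp h').1
  rw [h2] at h1
  exact Prod.ext (by linarith) h2

theorem shear_segment (e : ℝ) (p q : ℝ × ℝ) :
    shear e '' segment ℝ p q = segment ℝ (shear e p) (shear e q) :=
  image_segment ℝ (shear e).toAffineMap p q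

theorem straighten {n : ℕ} (p q : Fin n → ℝ × ℝ) :
    ∃ (P Q : Fin n → ℝ × ℝ) (a b : Fin n → ℝ),
      (∀ v, (P v).2 = a v * (P v).1 + b v ∧ (Q v).2 = a v * (Q v).1 + b v ∧ (P v).1 ≤ (Q v).1) ∧
      ∀ v w, (segment ℝ (p v) (q v) ∩ segment ℝ (p w) (q w)).Nonempty ↔
        (segment ℝ (P v) (Q v) ∩ segment ℝ (P w) (Q w)).Nonempty := by
  -- a good shear
  have h1 : (⋃ v : Fin n, {e : ℝ | p v ≠ q v ∧
      (p v).1 + e * (p v).2 = (q v).1 + e * (q v).2}).Finite := by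
    refine Set.finite_iUnion fun v => Set.Subsingleton.finite ?_
    rintro e ⟨hpq, he⟩ e' ⟨-, he'⟩
    by_contra hne
    apply hpq
    have h2 : (p v).2 = (q v).2 := by
      have h3 : (e - e') * ((p v).2 - (q v).2) = 0 := by linear_combination he - he'
      rcases mul_eq_zero.mp h3 with h4 | h4
      · exact absurd (sub_eq_zero.mp h4) hne
      · exact sub_eq_zero.mp h4
    exact Prod.ext (by rw [h2] at he; linarith) h2
  obtain ⟨e, he⟩ := h1.infinite_compl.nonempty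
  have he2 : ∀ v, p v ≠ q v → (p v).1 + e * (p v).2 ≠ (q v).1 + e * (q v).2 := by
    intro v h2 h3
    exact he (Set.mem_iUnion.mpr ⟨v, h2, h3⟩)
  have key : ∀ v, ∃ (P Q : ℝ × ℝ) (a b : ℝ), (P.2 = a * P.1 + b ∧ Q.2 = a * Q.1 + b ∧ P.1 ≤ Q.1) ∧
      segment ℝ P Q = shear e '' segment ℝ (p v) (q v) := by
    intro v
    have aux : ∀ P Q : ℝ × ℝ, P.1 < Q.1 → ∃ a b : ℝ, P.2 = a * P.1 + b ∧ Q.2 = a * Q.1 + b ∧
        P.1 ≤ Q.1 := by
      intro P Q hPQ
      have h5 : Q.1 - P.1 ≠ 0 := (sub_pos.mpr hPQ).ne'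
      refine ⟨(Q.2 - P.2) / (Q.1 - P.1), P.2 - (Q.2 - P.2) / (Q.1 - P.1) * P.1, by ring, ?_,
        hPQ.le⟩
      field_simp
      ring
    by_cases hv : p v = q v
    · refine ⟨shear e (p v), shear e (q v), 0, (shear e (p v)).2, ⟨by ring, ?_, ?_⟩,
        (shear_segment e _ _).symm⟩
      · rw [hv]; ring
      · rw [hv]
    · rcases lt_or_gt_of_ne (he2 v hv) with h2 | h2
      · obtain ⟨a, b, h3⟩ := aux (shear e (p v)) (shear e (q v)) h2
        exact ⟨_, _, a, b, h3, (shear_segment e _ _).symm⟩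
      · obtain ⟨a, b, h3⟩ := aux (shear e (q v)) (shear e (p v)) h2
        exact ⟨_, _, a, b, h3, by rw [segment_symm, shear_segment]⟩
  choose P Q a b h2 h3 using key
  refine ⟨P, Q, a, b, h2, fun v w => ?_⟩
  rw [h3, h3, ← Set.image_inter (shear_inj e), Set.image_nonempty]

/-! ### Codes -/

/-- The code of eight numbers. -/
def enc (r1 r2 a1 a2 a3 b1 b2 b3 : ℕ) : ℕ :=
  Nat.pair (Nat.pair (Nat.pair r1 r2) (Nat.pair a1 a2)) (Nat.pair (Nat.pair a3 b1) (Nat.pair b2 b3))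

def c1 (z : ℕ) : ℕ := z.unpair.1.unpair.1.unpair.1
def c2 (z : ℕ) : ℕ := z.unpair.1.unpair.1.unpair.2
def c3 (z : ℕ) : ℕ := z.unpair.1.unpair.2.unpair.1
def c4 (z : ℕ) : ℕ := z.unpair.1.unpair.2.unpair.2
def c5 (z : ℕ) : ℕ := z.unpair.2.unpair.1.unpair.1
def c6 (z : ℕ) : ℕ := z.unpair.2.unpair.1.unpair.2
def c7 (z : ℕ) : ℕ := z.unpair.2.unpair.2.unpair.1
def c8 (z : ℕ) : ℕ := z.unpair.2.unpair.2.unpair.2

theorem pair_lt {a b B : ℕ} (ha : a < B) (hb : b < B) : Nat.pair a b < B ^ 2 :=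
  lt_of_lt_of_le (Nat.pair_lt_max_add_one_sq a b)
    (Nat.pow_le_pow_left (Nat.succ_le_of_lt (max_lt ha hb)) 2)

theorem enc_lt {r1 r2 a1 a2 a3 b1 b2 b3 B : ℕ} (h1 : r1 < B) (h2 : r2 < B) (h3 : a1 < B)
    (h4 : a2 < B) (h5 : a3 < B) (h6 : b1 < B) (h7 : b2 < B) (h8 : b3 < B) :
    enc r1 r2 a1 a2 a3 b1 b2 b3 < B ^ 8 := by
  have h := pair_lt (pair_lt (pair_lt h1 h2) (pair_lt h3 h4)) (pair_lt (pair_lt h5 h6) (pair_lt h7 h8))
  calc enc r1 r2 a1 a2 a3 b1 b2 b3 < ((B ^ 2) ^ 2) ^ 2 := h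
    _ = B ^ 8 := by ring

/-- The graph of points and lines. -/
def plGraph {N : ℕ} (c : Fin N → Bool) (x y : Fin N → ℝ) : SimpleGraph (Fin N) where
  Adj v w := (c v = false ∧ c w = true ∧ x w * x v + y w ≤ y v) ∨
    (c w = false ∧ c v = true ∧ x v * x w + y v ≤ y w)
  symm := ⟨fun _ _ h => h.symm⟩
  loopless := ⟨fun v h => by
    rcases h with ⟨h1, h2, -⟩ | ⟨h1, h2, -⟩ <;> rw [h1] at h2 <;> cases h2⟩

/-- The number of values which are less than `t`. -/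
noncomputable def rk {n : ℕ} (P Q : Fin n → ℝ × ℝ) (t : ℝ) : ℕ :=
  ((Finset.univ : Finset (Fin n)).filter (fun v => (P v).1 < t)).card +
    ((Finset.univ : Finset (Fin n)).filter (fun v => (Q v).1 < t)).card

theorem rk_le {n : ℕ} (P Q : Fin n → ℝ × ℝ) (t : ℝ) : rk P Q t ≤ 2 * n := by
  have h1 := Finset.card_filter_le (Finset.univ : Finset (Fin n)) (fun v => (P v).1 < t)
  have h2 := Finset.card_filter_le (Finset.univ : Finset (Fin n)) (fun v => (Q v).1 < t)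
  rw [Finset.card_univ, Fintype.card_fin] at h1 h2
  unfold rk
  omega

theorem rk_mono {n : ℕ} (P Q : Fin n → ℝ × ℝ) {s t : ℝ} (h : s ≤ t) : rk P Q s ≤ rk P Q t := by
  unfold rk
  refine Nat.add_le_add (Finset.card_le_card ?_) (Finset.card_le_card ?_)
  · intro v hv
    rw [Finset.mem_filter] at hv ⊢
    exact ⟨hv.1, lt_of_lt_of_le hv.2 h⟩
  · intro v hv
    rw [Finset.mem_filter] at hv ⊢
    exact ⟨hv.1, lt_of_lt_of_le hv.2 h⟩

theorem rk_lt {n : ℕ} (P Q : Fin n → ℝ × ℝ) {s t : ℝ} (h : s < t)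
    (hs : (∃ v, (P v).1 = s) ∨ ∃ v, (Q v).1 = s) : rk P Q s < rk P Q t := by
  have m1 : ∀ R : Fin n → ℝ × ℝ, (Finset.univ.filter (fun v => (R v).1 < s)).card ≤
      (Finset.univ.filter (fun v => (R v).1 < t)).card := by
    intro R
    refine Finset.card_le_card fun v hv => ?_
    rw [Finset.mem_filter] at hv ⊢
    exact ⟨hv.1, lt_trans hv.2 h⟩
  have m2 : ∀ R : Fin n → ℝ × ℝ, (∃ v, (R v).1 = s) →
      (Finset.univ.filter (fun v => (R v).1 < s)).card <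
      (Finset.univ.filter (fun v => (R v).1 < t)).card := by
    rintro R ⟨v, hv⟩
    refine Finset.card_lt_card (Finset.ssubset_iff_subset_ne.mpr ⟨?_, ?_⟩)
    · intro w hw
      rw [Finset.mem_filter] at hw ⊢
      exact ⟨hw.1, lt_trans hw.2 h⟩
    · intro he
      have h3 : v ∈ Finset.univ.filter (fun v => (R v).1 < t) := by
        rw [Finset.mem_filter]
        exact ⟨Finset.mem_univ _, by rw [hv]; exact h⟩
      rw [← he, Finset.mem_filter, hv] at h3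
      exact lt_irrefl _ h3.2
  unfold rk
  rcases hs with hs | hs
  · exact Nat.add_lt_add_of_lt_of_le (m2 P hs) (m1 Q)
  · exact Nat.add_lt_add_of_le_of_lt (m1 P) (m2 Q hs)

theorem rk_iff {n : ℕ} (P Q : Fin n → ℝ × ℝ) {s t : ℝ}
    (ht : (∃ v, (P v).1 = t) ∨ ∃ v, (Q v).1 = t) : rk P Q s ≤ rk P Q t ↔ s ≤ t := by
  constructor
  · intro h
    by_contra h1
    exact absurd (rk_lt P Q (lt_of_not_ge h1) ht) (not_lt.mpr h)
  · exact rk_mono P Q

end Pool.Agent.Helper58.SG
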