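import Pool.Agent.Helper58.SG.Main3

set_option autoImplicit false

namespace Pool.Agent.Helper58.SG

open Filter Topology

/-- Half of the width of a unit segment of slope `a`. -/
noncomputable def hw (a : ℝ) : ℝ := 1 / (2 * Real.sqrt (1 + a ^ 2))

theorem sqrt_pos' (a : ℝ) : 0 < Real.sqrt (1 + a ^ 2) := Real.sqrt_pos.mpr (by positivity)

theorem hw_pos (a : ℝ) : 0 < hw a := by
  have := sqrt_pos' a
  unfold hw
  positivity

theorem hw_sq (a : ℝ) : (2 * hw a) ^ 2 * (1 + a ^ 2) = 1 := by
  have h1 := sqrt_pos' a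
  have h2 : Real.sqrt (1 + a ^ 2) ^ 2 = 1 + a ^ 2 := Real.sq_sqrt (by positivity)
  have h3 : 2 * hw a = 1 / Real.sqrt (1 + a ^ 2) := by
    unfold hw
    field_simp
  rw [h3, div_pow, one_pow, h2]
  field_simp

/-- The distance of `(t x, t y)` and `(0, - 1/2)`. -/
noncomputable def rr (x y t : ℝ) : ℝ := Real.sqrt ((t * x) ^ 2 + (-(1 / 2) - t * y) ^ 2)

theorem rr_cont (x y : ℝ) : Continuous (rr x y) := by
  unfold rr
  fun_prop

theorem rr_zero (x y : ℝ) : rr x y 0 = 1 / 2 := by
  unfold rr
  rw [show (0 * x) ^ 2 + (-(1 / 2) - 0 * y) ^ 2 = (1 / 2 : ℝ) ^ 2 by ring]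
  exact Real.sqrt_sq (by norm_num)

theorem pl_of_unit (hC : HasELR UnitTwo) : HasELR PointLine := by
  refine transfer_build hC fun n c x y hsl hst => ?_
  have hdown : ∀ {P : ℝ → Prop}, (∀ᶠ t in 𝓝 (0 : ℝ), P t) → ∀ᶠ t in 𝓝[>] (0 : ℝ), P t :=
    fun h => h.filter_mono nhdsWithin_le_nhds
  -- the conditions for the scale
  have E1 : ∀ᶠ t in 𝓝[>] (0 : ℝ), ∀ v w : Fin n, - hw (x w) < t * x v ∧ t * x v < hw (x w) := by
    rw [eventually_all]; intro v
    rw [eventually_all]; intro w
    have := hw_pos (x w)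
    refine Eventually.and (hdown ?_) (hdown ?_)
    · refine ContinuousAt.eventually_lt continuousAt_const (by fun_prop) ?_
      simpa using this
    · refine ContinuousAt.eventually_lt (by fun_prop) continuousAt_const ?_
      simpa using this
  have E2 : ∀ᶠ t in 𝓝[>] (0 : ℝ), ∀ w : Fin n, - (1 / 2) < t * y w := by
    rw [eventually_all]; intro w
    refine hdown (ContinuousAt.eventually_lt continuousAt_const (by fun_prop) ?_)
    norm_num
  have E3 : ∀ᶠ t in 𝓝[>] (0 : ℝ), ∀ v w : Fin n,
      t * y v + (-(1 / 2) - t * y v) / rr (x v) (y v) t <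
        x w * (t * x v + (- (t * x v)) / rr (x v) (y v) t) + t * y w := by
    rw [eventually_all]; intro v
    rw [eventually_all]; intro w
    have hc := (rr_cont (x v) (y v)).continuousAt (x := (0 : ℝ))
    have h0 : rr (x v) (y v) 0 ≠ 0 := by rw [rr_zero]; norm_num
    refine hdown (ContinuousAt.eventually_lt ?_ ?_ ?_)
    · exact ContinuousAt.add (by fun_prop) (ContinuousAt.div (by fun_prop) hc h0)
    · exact ContinuousAt.add (ContinuousAt.mul continuousAt_const
        (ContinuousAt.add (by fun_prop) (ContinuousAt.div (by fun_prop) hc h0))) (by fun_prop)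
    · rw [rr_zero]
      norm_num
  have E4 : ∀ᶠ t in 𝓝[>] (0 : ℝ), ∀ v : Fin n, 0 < rr (x v) (y v) t ∧ rr (x v) (y v) t < 1 := by
    rw [eventually_all]; intro v
    have hc := (rr_cont (x v) (y v)).continuousAt (x := (0 : ℝ))
    refine Eventually.and (hdown ?_) (hdown ?_)
    · refine ContinuousAt.eventually_lt continuousAt_const hc ?_
      rw [rr_zero]; norm_num
    · refine ContinuousAt.eventually_lt hc continuousAt_const ?_
      rw [rr_zero]; norm_num
  have E5 : ∀ᶠ t in 𝓝[>] (0 : ℝ), ∀ v w u : Fin n,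
      - hw (x u) < t * ((y w - y v) / (x v - x w)) ∧ t * ((y w - y v) / (x v - x w)) < hw (x u) := by
    rw [eventually_all]; intro v
    rw [eventually_all]; intro w
    rw [eventually_all]; intro u
    have := hw_pos (x u)
    refine Eventually.and (hdown ?_) (hdown ?_)
    · refine ContinuousAt.eventually_lt continuousAt_const (by fun_prop) ?_
      simpa using this
    · refine ContinuousAt.eventually_lt (by fun_prop) continuousAt_const ?_
      simpa using this
  obtain ⟨t, h1, h2, h3, h4, h5, ht⟩ :=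
    (E1.and (E2.and (E3.and (E4.and (E5.and eventually_mem_nhdsWithin))))).exists
  have ht : 0 < t := ht
  obtain ⟨p, q, g1, g2, g3, g4⟩ := build c x (fun v => t * y v) (fun v => - hw (x v))
    (fun v => hw (x v)) (fun v => (t * x v, t * y v))
    (fun v => (t * x v + (- (t * x v)) / rr (x v) (y v) t,
      t * y v + (-(1 / 2) - t * y v) / rr (x v) (y v) t)) (0, -(1 / 2))
    (fun v w _ _ => ⟨(h1 v w).1.le, (h1 v w).2.le⟩)
    (fun w _ => ⟨by simpa using (hw_pos (x w)).le, (hw_pos (x w)).le⟩)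
    (fun w _ => by simpa using h2 w)
    (fun v w _ _ => h3 v w)
    (fun v _ => by
      obtain ⟨r, hr⟩ : ∃ r, r = rr (x v) (y v) t := ⟨_, rfl⟩
      have hr0 : 0 < r := by rw [hr]; exact (h4 v).1
      have hr1 : r < 1 := by rw [hr]; exact (h4 v).2
      rw [← hr]
      refine ⟨r, 1 - r, hr0.le, by linarith, by ring, ?_⟩
      apply Prod.ext
      · simp only [Prod.fst_add, Prod.smul_fst, smul_eq_mul]
        field_simp
        ring
      · simp only [Prod.snd_add, Prod.smul_snd, smul_eq_mul]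
        field_simp
        ring)
    (fun v w hv hw' hvw => by
      have hne : x v - x w ≠ 0 := sub_ne_zero.mpr (hsl v w hv hw' hvw)
      refine ⟨t * ((y w - y v) / (x v - x w)), (h5 v w v).1.le, (h5 v w v).2.le, (h5 v w w).1.le,
        (h5 v w w).2.le, ?_⟩
      field_simp
      ring)
  refine ⟨iGraph p q, ⟨g3, p, q, iGraph_rep p q, fun v => ?_⟩, fun v w hv hw' => ?_⟩
  · rcases hv : c v with _ | _
    · rw [(g2 v hv).1, (g2 v hv).2]
      obtain ⟨r, hr⟩ : ∃ r, r = rr (x v) (y v) t := ⟨_, rfl⟩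
      have hr0 : 0 < r := by rw [hr]; exact (h4 v).1
      have hr2 : r ^ 2 = (t * x v) ^ 2 + (-(1 / 2) - t * y v) ^ 2 := by
        rw [hr]; exact Real.sq_sqrt (by positivity)
      rw [← hr]
      show (t * x v - (t * x v + -(t * x v) / r)) ^ 2 +
        (t * y v - (t * y v + (-(1 / 2) - t * y v) / r)) ^ 2 = 1
      have h6 : (t * x v - (t * x v + -(t * x v) / r)) ^ 2 +
        (t * y v - (t * y v + (-(1 / 2) - t * y v) / r)) ^ 2 =
        ((t * x v) ^ 2 + (-(1 / 2) - t * y v) ^ 2) / r ^ 2 := by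
        field_simp
        ring
      rw [h6, ← hr2]
      field_simp
    · rw [(g1 v hv).1, (g1 v hv).2]
      have := hw_sq (x v)
      show (hw (x v) - -hw (x v)) ^ 2 + (x v * hw (x v) + t * y v - (x v * -hw (x v) + t * y v)) ^ 2 = 1
      linear_combination this
  · rw [g4 v w hv hw']
    show x w * (t * x v) + t * y w ≤ t * y v ↔ _
    constructor
    · intro h6
      have h7 : t * (x w * x v + y w) ≤ t * y v := by linarith
      exact le_of_mul_le_mul_left h7 ht
    · intro h6
      have h7 := mul_le_mul_of_nonneg_left h6 ht.le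
      linarith

end Pool.Agent.Helper58.SG
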